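import Pool.Agent.Lib.MP_a6e91d_co.Count

set_option autoImplicit false

namespace Pool.Agent.Lib.MP_a6e91d_co
open Finset

/-- An arbitrary tiling of the integer lattice by cross-polytope balls of radius `s`, with a
centre at the origin. -/
structure Code (m s : ℕ) where
  C : Set (V m)
  zero : (0 : V m) ∈ C
  ex : ∀ y, ∃ u, u ∈ C ∧ nrm (u - y) ≤ s
  uniq : ∀ y u u', u ∈ C → u' ∈ C → nrm (u - y) ≤ s → nrm (u' - y) ≤ s → u = u'

variable {m s : ℕ} (T : Code m s)

namespace Code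

open Classical in
noncomputable def L (n : ℕ) : Finset (V m) := (sph m n).filter fun u => u ∈ T.C

theorem mem_L {n : ℕ} {u : V m} : u ∈ T.L n ↔ nrm u = n ∧ u ∈ T.C := by
  simp [L]

theorem near_unique {y u u' : V m} (hu : u ∈ T.C) (hu' : u' ∈ T.C) (h : nrm (u - y) ≤ s)
    (h' : nrm (u' - y) ≤ s) : u = u' := T.uniq y u u' hu hu' h h'

theorem exists_near (y : V m) : ∃ u, u ∈ T.C ∧ nrm (u - y) ≤ s := T.ex y

theorem min_nrm {u : V m} (h : u ∈ T.C) (h0 : u ≠ 0) : 2 * s + 1 ≤ nrm u := by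
  by_contra hlt
  obtain ⟨y, hy, hn⟩ := exists_le u (nrm u / 2) (by omega)
  have h1 := hy.nrm_eq
  exact h0 (T.uniq y u 0 h T.zero (by omega) (by rw [zero_sub, nrm_neg]; omega))

/-- the centres of norm `n` above `y` -/
noncomputable def up (n : ℕ) (y : V m) : Finset (V m) := (T.L n).filter fun u => Le y u

theorem mem_up {n : ℕ} {y u : V m} : u ∈ T.up n y ↔ (nrm u = n ∧ u ∈ T.C) ∧ Le y u := by
  simp [up, mem_L]

open Classical in
/-- the tiling seen from the centre `c` -/
noncomputable def sh (c : V m) : Code m s :=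
  if h : c ∈ T.C then
    { C := {w | w + c ∈ T.C}
      zero := by simpa using h
      ex := fun y => by
        obtain ⟨u, hu, hn⟩ := T.ex (y + c)
        exact ⟨u - c, by simpa using hu, by rwa [sub_sub, add_comm c y]⟩
      uniq := fun y u u' hu hu' h1 h2 => by
        have := T.uniq (y + c) (u + c) (u' + c) hu hu' (by simpa using h1) (by simpa using h2)
        simpa using this }
  else T

theorem mem_sh {c : V m} (h : c ∈ T.C) (w : V m) : w ∈ (T.sh c).C ↔ w + c ∈ T.C := by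
  unfold sh
  rw [dif_pos h]
  rfl

theorem cover1 {y : V m} (hy : nrm y = s + 1) : (T.up (2 * s + 1) y).card = 1 := by
  obtain ⟨u, hu, hn⟩ := T.exists_near y
  have h0 : u ≠ 0 := by rintro rfl; simp at hn; omega
  have h1 := T.min_nrm hu h0
  have h2 := nrm_add_le y (u - y)
  rw [add_sub_cancel] at h2
  rw [card_eq_one]
  refine ⟨u, eq_singleton_iff_unique_mem.2 ⟨T.mem_up.2 ⟨⟨by omega, hu⟩, le_of_nrm (by omega)⟩, ?_⟩⟩
  intro u' hu'
  rw [mem_up] at hu'
  have := hu'.2.nrm_eq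
  exact T.near_unique hu'.1.2 hu (by omega) hn

theorem cover2 {y : V m} (hy : nrm y = s + 2) :
    (T.up (2 * s + 1) y).card + (T.up (2 * s + 2) y).card = 1 := by
  obtain ⟨u, hu, hn⟩ := T.exists_near y
  have h0 : u ≠ 0 := by rintro rfl; simp at hn; omega
  have h1 := T.min_nrm hu h0
  have h2 := nrm_add_le y (u - y)
  have h3 := nrm_add_mod y (u - y)
  rw [add_sub_cancel] at h2 h3
  have key : ∀ n u', n ≤ 2 * s + 2 → u' ∈ T.up n y → u' = u := by
    intro n u' hn' hu'
    rw [mem_up] at hu'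
    have := hu'.2.nrm_eq
    exact T.near_unique hu'.1.2 hu (by omega) hn
  have hmem : u ∈ T.up (nrm u) y := T.mem_up.2 ⟨⟨rfl, hu⟩, le_of_nrm (by omega)⟩
  have hemp : ∀ n, n ≤ 2 * s + 2 → n ≠ nrm u → T.up n y = ∅ := by
    intro n hn' hne
    refine eq_empty_of_forall_notMem fun u' hu' => hne ?_
    rw [← key n u' hn' hu']
    exact (T.mem_up.1 hu').1.1.symm
  have hone : (T.up (nrm u) y).card = 1 :=
    card_eq_one.2 ⟨u, eq_singleton_iff_unique_mem.2 ⟨hmem, fun u' h => key _ u' (by omega) h⟩⟩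
  by_cases hc : nrm u = 2 * s + 1
  · rw [hemp (2 * s + 2) le_rfl (by omega), ← hc, hone]; rfl
  · have hc' : nrm u = 2 * s + 2 := by omega
    rw [hemp (2 * s + 1) (by omega) (by omega), ← hc', hone]; rfl

/-- neighbours of `y - u`, seen from the centre `u`, are `-u` and the translates of the centres
of norm `2s+2` above `y` -/
theorem sum_up_shift {M : Type*} [AddCommMonoid M] {y u : V m} (hy : nrm y = s + 1)
    (hu : u ∈ T.up (2 * s + 1) y) (T' : Code m s) (hT : ∀ w, w ∈ T'.C ↔ w + u ∈ T.C)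
    (g : V m → M) :
    ∑ u' ∈ T'.up (2 * s + 1) (y - u), g (u' - (y - u)) =
      g (-y) + ∑ w ∈ T.up (2 * s + 2) y, g (w - y) := by
  rw [mem_up] at hu
  have h1 := hu.2.nrm_eq
  have hx : nrm (y - u) = s := by rw [nrm_sub_comm]; omega
  have hm : -u ∈ T'.up (2 * s + 1) (y - u) := by
    refine T'.mem_up.2 ⟨⟨by simp [hu.1.1], by rw [hT]; simpa using T.zero⟩, ?_⟩
    have := hu.2.compl.neg
    rwa [neg_sub] at this
  rw [← add_sum_erase _ _ hm]
  congr 1
  · congr 1; abel
  · refine sum_bij' (fun u' _ => u' + u) (fun w _ => w - u) ?_ ?_ ?_ ?_ ?_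
    · intro u' hu'
      rw [mem_erase, mem_up] at hu'
      have h2 := hu'.2.2.nrm_eq
      have e : u' - (y - u) = u' + u - y := by abel
      rw [e] at h2
      have h3 : u' + u ∈ T.C := (hT _).1 hu'.2.1.2
      have h4 := T.min_nrm h3 (fun h => hu'.1 (eq_neg_of_add_eq_zero_left h))
      have h5 := nrm_add_le y (u' + u - y)
      have h6 := nrm_add_mod y (u' + u - y)
      rw [add_sub_cancel] at h5 h6
      exact T.mem_up.2 ⟨⟨by omega, h3⟩, le_of_nrm (by omega)⟩
    · intro w hw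
      rw [mem_up] at hw
      have h2 := hw.2.nrm_eq
      have h3 : w - u ∈ T'.C := by rw [hT]; simpa using hw.1.2
      have h4 := T'.min_nrm h3 (fun h => by rw [sub_eq_zero.1 h] at hw; omega)
      have e : w - u - (y - u) = w - y := by abel
      have h5 := nrm_add_le (y - u) (w - u - (y - u))
      rw [add_sub_cancel, e] at h5
      rw [mem_erase, mem_up]
      refine ⟨fun h => ?_, ⟨by omega, h3⟩, le_of_nrm (by rw [e]; omega)⟩
      have : w = 0 := by simpa using h
      rw [this, nrm_zero] at hw; omega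
    · intro u' _; simp
    · intro w _; simp
    · intro u' _; congr 1; abel

/-- complementation below a centre of norm `2s+1` -/
theorem sum_compl {M : Type*} [AddCommMonoid M] (F : V m → V m → M) :
    ∑ x ∈ sph m s, ∑ u ∈ T.up (2 * s + 1) x, F x (u - x) =
      ∑ y ∈ sph m (s + 1), ∑ u ∈ T.up (2 * s + 1) y, F (u - y) y := by
  rw [sum_sigma', sum_sigma']
  refine sum_bij' (fun p _ => ⟨p.2 - p.1, p.2⟩) (fun p _ => ⟨p.2 - p.1, p.2⟩) ?_ ?_ ?_ ?_ ?_
  · rintro ⟨x, u⟩ h
    simp only [mem_sigma, mem_sph, mem_up] at h ⊢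
    have h1 := h.2.2.nrm_eq
    exact ⟨by omega, h.2.1, h.2.2.compl⟩
  · rintro ⟨x, u⟩ h
    simp only [mem_sigma, mem_sph, mem_up] at h ⊢
    have h1 := h.2.2.nrm_eq
    exact ⟨by omega, h.2.1, h.2.2.compl⟩
  · rintro ⟨x, u⟩ _; simp
  · rintro ⟨x, u⟩ _; simp
  · rintro ⟨x, u⟩ _; simp

/-- double counting of pairs (point, lattice vector above it) -/
theorem sum_up_comm {M : Type*} [AddCommMonoid M] (j n : ℕ) (F : V m → V m → M) :
    ∑ y ∈ sph m j, ∑ u ∈ T.up n y, F y u =
      ∑ u ∈ T.L n, ∑ y ∈ (sph m j).filter (fun y => Le y u), F y u := by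
  unfold up
  simp only [sum_filter]
  rw [sum_comm]

/-- number of lattice vectors at distance `s+1` from a point `x` of norm `s` -/
noncomputable def K (x : V m) : ℕ := (T.up (2 * s + 1) x).card
/-- number of lattice vectors of norm `2s+2` above `y` -/
noncomputable def Kt (y : V m) : ℕ := (T.up (2 * s + 2) y).card

theorem sum_sup {x : V m} (hx : nrm x = s) :
    ∑ u ∈ T.up (2 * s + 1) x, sup (u - x) + sup x = 2 * m := by
  rw [← card_isUp x]
  congr 1
  have h1 : ∀ u ∈ T.up (2 * s + 1) x, sup (u - x) =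
      ∑ d ∈ univ.filter (fun d => IsUp x d), if Le (x + dir d) u then 1 else 0 := by
    intro u hu
    rw [← card_isUp_le (T.mem_up.1 hu).2, ← card_filter, filter_filter]
  rw [sum_congr rfl h1, sum_comm, card_eq_sum_ones]
  refine sum_congr rfl fun d hd => ?_
  rw [mem_filter] at hd
  rw [← card_filter]
  refine Eq.trans ?_ (T.cover1 (y := x + dir d) (by rw [hd.2.nrm_eq, hx]))
  congr 1
  ext u
  simp only [mem_filter, mem_up]
  exact ⟨fun h => ⟨h.1.1, h.2⟩, fun h => ⟨⟨h.1, hd.2.le.trans h.2⟩, h.2⟩⟩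

theorem nrm_sub_of_up {x u : V m} (hx : nrm x = s) (hu : u ∈ T.up (2 * s + 1) x) :
    nrm (u - x) = s + 1 := by
  rw [mem_up] at hu
  have := hu.2.nrm_eq
  omega

/-- the pointwise identity -/
theorem K_eq {x : V m} (hx : nrm x = s) :
    (s + 1) * T.K x + s = 2 * m + exc x + ∑ u ∈ T.up (2 * s + 1) x, exc (u - x) := by
  have h1 := T.sum_sup hx
  have h2 : ∑ u ∈ T.up (2 * s + 1) x, (sup (u - x) + exc (u - x)) = (s + 1) * T.K x := by
    rw [sum_congr rfl fun u hu => (sup_add_exc (u - x)).trans (T.nrm_sub_of_up hx hu)]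
    simp [K, mul_comm]
  rw [sum_add_distrib] at h2
  have := sup_add_exc x
  omega

theorem K_shift {y u : V m} (hy : nrm y = s + 1) (hu : u ∈ T.up (2 * s + 1) y)
    (T' : Code m s) (hT : ∀ w, w ∈ T'.C ↔ w + u ∈ T.C) : T'.K (y - u) = 1 + T.Kt y := by
  have := T.sum_up_shift hy hu T' hT (fun _ => (1 : ℕ))
  simpa [K, Kt] using this

theorem exists_up {y : V m} (hy : nrm y = s + 1) : ∃ u, T.up (2 * s + 1) y = {u} :=
  card_eq_one.1 (T.cover1 hy)

/-- lower bound for `Kt` from the excess of the point -/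
theorem Kt_ge {y : V m} (hy : nrm y = s + 1) : 2 * m + exc y ≤ (s + 1) * (1 + T.Kt y) + s := by
  obtain ⟨u, hu⟩ := T.exists_up hy
  have hu' : u ∈ T.up (2 * s + 1) y := by rw [hu]; exact mem_singleton_self u
  have h0 := (T.mem_up.1 hu').2.nrm_eq
  have h00 := (T.mem_up.1 hu').1.1
  have hT := T.mem_sh (T.mem_up.1 hu').1.2
  have h1 := (T.sh u).K_eq (x := y - u) (by rw [nrm_sub_comm]; omega)
  rw [T.sum_up_shift hy hu' _ hT exc, T.K_shift hy hu' _ hT, exc_neg] at h1
  omega

theorem sum_K : ∑ x ∈ sph m s, T.K x = (sph m (s + 1)).card := by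
  have := T.sum_compl (fun _ _ => (1 : ℕ))
  simp only [sum_const, smul_eq_mul, mul_one] at this
  unfold K
  rw [this, sum_congr rfl fun y hy => T.cover1 (mem_sph.1 hy)]
  simp

end Code

end Pool.Agent.Lib.MP_a6e91d_co
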