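import Pool.Agent.Lib.MP_a6e91d_co.NL.Basic

set_option autoImplicit false

namespace Pool.Agent.Lib.MP_a6e91d_co
open Finset

theorem nrm_le_iff {m s : ℕ} (x c : V m) : nrm (c - x) ≤ s ↔ ∑ i, |x i - c i| ≤ (s : ℤ) := by
  have : ((nrm (c - x) : ℕ) : ℤ) = ∑ i, |x i - c i| := by
    simp only [nrm, Nat.cast_sum, Int.natCast_natAbs, Pi.sub_apply]
    exact sum_congr rfl fun i _ => abs_sub_comm _ _
  rw [← this, Nat.cast_le]

/-- a tiling of the integer lattice, translated so that one centre is the origin -/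
theorem exists_code {m s : ℕ} (C : Set (Fin m → ℤ))
    (h : ∀ x : Fin m → ℤ, ∃! c, c ∈ C ∧ ∑ i, |x i - c i| ≤ (s : ℤ)) : Nonempty (Code m s) := by
  simp only [← nrm_le_iff] at h
  obtain ⟨z, ⟨hz, -⟩, -⟩ := h 0
  refine ⟨{ C := {w | w + z ∈ C}
            zero := by simpa using hz
            ex := fun y => ?_
            uniq := fun y u u' hu hu' h1 h2 => ?_ }⟩
  · obtain ⟨u, ⟨hu, hn⟩, -⟩ := h (y + z)
    exact ⟨u - z, by simpa using hu, by rwa [sub_sub, add_comm z y]⟩
  · have := (h (y + z)).unique (y₁ := u + z) (y₂ := u' + z) ⟨hu, by simpa using h1⟩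
      ⟨hu', by simpa using h2⟩
    simpa using this

end Pool.Agent.Lib.MP_a6e91d_co
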