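import Pool.Agent.Lib.MP_a6e91d_co.NL.LP
import Pool.Agent.Lib.MP_a6e91d_co.C1
import Pool.Agent.Lib.MP_a6e91d_co.C2
import Pool.Agent.Lib.MP_a6e91d_co.C3
import Pool.Agent.Lib.MP_a6e91d_co.C4

set_option autoImplicit false
set_option maxRecDepth 100000

namespace Pool.Agent.Lib.MP_a6e91d_co

theorem c4T1_E : c4T1.E = true := by decide +kernel
theorem c4T2_E : c4T2.E = true := by decide +kernel
theorem c5T1_E : c5T1.E = true := by decide +kernel
theorem c6T1_E : c6T1.E = true := by decide +kernel
theorem c6T3_E : c6T3.E = true := by decide +kernel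
theorem c7T2_E : c7T2.E = true := by decide +kernel
theorem c8T2_E : c8T2.E = true := by decide +kernel
theorem c8T3_E : c8T3.E = true := by decide +kernel
theorem c9T2_E : c9T2.E = true := by decide +kernel
theorem c10T3_E : c10T3.E = true := by decide +kernel

end Pool.Agent.Lib.MP_a6e91d_co
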