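import Pool.Agent.Lib.MP_a6e91d_co.NL.LP

set_option autoImplicit false
set_option maxRecDepth 100000

namespace Pool.Agent.Lib.MP_a6e91d_co

def d5T2 : Cert where
  s := 5
  b := 12
  den := 24
  tT := (.node 0 (.node 0 (.node 0 (.node 0 (.node 0 (.node 0 (.leaf (24) .nil) .nil) .nil) .nil) .nil)
    .nil) .nil)
  tC := (.node 6 (.leaf (3114) .nil) (.node 5 (.node 0 (.leaf (-543) .nil) .nil) (.node 4 (.node 1
    (.leaf (28944) .nil) (.node 0 (.node 0 (.leaf (-460) .nil) .nil) .nil)) (.node 3 (.node 2 (.leaf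
    (10944) .nil) (.node 1 (.node 0 (.leaf (-3500) .nil) .nil) (.node 0 (.node 0 (.node 0 (.leaf
    (380) .nil) .nil) .nil) .nil))) (.node 2 (.node 2 (.node 0 (.leaf (-1816) .nil) .nil) (.node 1
    (.node 1 (.leaf (22860) .nil) (.node 0 (.node 0 (.leaf (-2200) .nil) .nil) .nil)) (.node 0
    (.node 0 (.node 0 (.node 0 (.leaf (180) .nil) .nil) .nil) .nil) .nil))) (.node 1 (.node 1 (.node
    1 (.node 0 (.leaf (1820) .nil) .nil) (.node 0 (.node 0 (.node 0 (.leaf (-180) .nil) .nil) .nil)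
    .nil)) (.node 0 (.node 0 (.node 0 (.node 0 (.node 0 (.leaf (44) .nil) .nil) .nil) .nil) .nil)
    .nil)) (.node 0 (.node 0 (.node 0 (.node 0 (.node 0 (.node 0 (.node 0 (.leaf (4) .nil) .nil)
    .nil) .nil) .nil) .nil) .nil) .nil)))))))
  tD := (.node 5 (.leaf (-765) .nil) (.node 4 (.node 0 (.leaf (1960) .nil) .nil) (.node 3 (.node 1
    (.leaf (8980) .nil) (.node 0 (.node 0 (.leaf (-780) .nil) .nil) .nil)) (.node 2 (.node 2 (.leaf
    (4520) .nil) (.node 1 (.node 0 (.leaf (6160) .nil) .nil) (.node 0 (.node 0 (.node 0 (.leaf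
    (-240) .nil) .nil) .nil) .nil))) (.node 1 (.node 1 (.node 1 (.leaf (-5700) .nil) (.node 0 (.node
    0 (.leaf (420) .nil) .nil) .nil)) (.node 0 (.node 0 (.node 0 (.node 0 (.leaf (-20) .nil) .nil)
    .nil) .nil) .nil)) (.node 0 (.node 0 (.node 0 (.node 0 (.node 0 (.node 0 (.leaf (-20) .nil)
    .nil) .nil) .nil) .nil) .nil) .nil))))))
  o1 := 0
  o2 := 0

theorem d5T2_ok : d5T2.ok = true := by decide +kernel
theorem d5T2_W : d5T2.W = true := by decide +kernel
theorem d5T2_E : d5T2.E = true := by decide +kernel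
theorem d5T2_U : d5T2.U = true := by decide +kernel
theorem d5T2_f : d5T2.fin2 (24 : ℕ) (1 : ℕ) = true := by decide +kernel

def d6T2 : Cert where
  s := 6
  b := 14
  den := 50661163
  tT := (.node 0 (.node 0 (.node 0 (.node 0 (.node 0 (.node 0 (.node 0 (.leaf (50661163) .nil) .nil)
    .nil) .nil) .nil) .nil) .nil) .nil)
  tC := (.node 7 (.leaf (312837931232) .nil) (.node 6 (.node 0 (.leaf (-29227375496) .nil) .nil) (.node
    5 (.node 1 (.leaf (807930581976) .nil) (.node 0 (.node 0 (.leaf (-19801277424) .nil) .nil)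
    .nil)) (.node 4 (.node 2 (.leaf (668301511032) .nil) (.node 1 (.node 0 (.leaf (24602422392)
    .nil) .nil) (.node 0 (.node 0 (.node 0 (.leaf (260543124) .nil) .nil) .nil) .nil))) (.node 3
    (.node 3 (.leaf (173761566264) .nil) (.node 2 (.node 0 (.leaf (-28742719104) .nil) .nil) (.node
    1 (.node 1 (.leaf (-75243765528) .nil) (.node 0 (.node 0 (.leaf (-18154066224) .nil) .nil)
    .nil)) (.node 0 (.node 0 (.node 0 (.node 0 (.leaf (1476411036) .nil) .nil) .nil) .nil) .nil))))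
    (.node 2 (.node 2 (.node 1 (.leaf (164038339080) .nil) (.node 0 (.node 0 (.leaf (-12704895996)
    .nil) .nil) .nil)) (.node 1 (.node 1 (.node 0 (.leaf (141468986016) .nil) .nil) (.node 0 (.node
    0 (.node 0 (.leaf (-8008197828) .nil) .nil) .nil) .nil)) (.node 0 (.node 0 (.node 0 (.node 0
    (.node 0 (.leaf (477662394) .nil) .nil) .nil) .nil) .nil) .nil))) (.node 1 (.node 1 (.node 1
    (.node 1 (.leaf (-9762993288) .nil) (.node 0 (.node 0 (.leaf (4040876376) .nil) .nil) .nil))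
    (.node 0 (.node 0 (.node 0 (.node 0 (.leaf (-436696494) .nil) .nil) .nil) .nil) .nil)) (.node 0
    (.node 0 (.node 0 (.node 0 (.node 0 (.node 0 (.leaf (94085017) .nil) .nil) .nil) .nil) .nil)
    .nil) .nil)) (.node 0 (.node 0 (.node 0 (.node 0 (.node 0 (.node 0 (.node 0 (.node 0 (.leaf
    (7237309) .nil) .nil) .nil) .nil) .nil) .nil) .nil) .nil) .nil))))))))
  tD := (.node 6 (.leaf (124073315544) .nil) (.node 5 (.node 0 (.leaf (95651558352) .nil) .nil) (.node 4
    (.node 1 (.leaf (139084980264) .nil) (.node 0 (.node 0 (.leaf (2715494292) .nil) .nil) .nil))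
    (.node 3 (.node 2 (.leaf (22616643600) .nil) (.node 1 (.node 0 (.leaf (158810558472) .nil) .nil)
    (.node 0 (.node 0 (.node 0 (.leaf (-5073491496) .nil) .nil) .nil) .nil))) (.node 2 (.node 2
    (.node 0 (.leaf (63050927976) .nil) .nil) (.node 1 (.node 1 (.leaf (-305423944272) .nil) (.node
    0 (.node 0 (.leaf (8935752960) .nil) .nil) .nil)) (.node 0 (.node 0 (.node 0 (.node 0 (.leaf
    (-353626530) .nil) .nil) .nil) .nil) .nil))) (.node 1 (.node 1 (.node 1 (.node 0 (.leaf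
    (-4306335408) .nil) .nil) (.node 0 (.node 0 (.node 0 (.leaf (735747564) .nil) .nil) .nil) .nil))
    (.node 0 (.node 0 (.node 0 (.node 0 (.node 0 (.leaf (-40965900) .nil) .nil) .nil) .nil) .nil)
    .nil)) (.node 0 (.node 0 (.node 0 (.node 0 (.node 0 (.node 0 (.node 0 (.leaf (-43423854) .nil)
    .nil) .nil) .nil) .nil) .nil) .nil) .nil)))))))
  o1 := 0
  o2 := 0

theorem d6T2_ok : d6T2.ok = true := by decide +kernel
theorem d6T2_W : d6T2.W = true := by decide +kernel
theorem d6T2_E : d6T2.E = true := by decide +kernel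
theorem d6T2_U : d6T2.U = true := by decide +kernel
theorem d6T2_f : d6T2.fin2 (28 : ℕ) (1 : ℕ) = true := by decide +kernel

end Pool.Agent.Lib.MP_a6e91d_co
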