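import Pool.Agent.Lib.MP_a6e91d_co.NL.Seven
import Pool.Agent.Lib.MP_a6e91d_co.NL.PC0
import Pool.Agent.Lib.MP_a6e91d_co.NL.PC1
import Pool.Agent.Lib.MP_a6e91d_co.NL.PC2

set_option autoImplicit false

namespace Pool.Agent.Lib.MP_a6e91d_co

namespace Code
variable {m : ℕ}

theorem six (T : Code m 6) (hm : 3 ≤ m) : False := by
  by_cases h0 : m ≤ 20
  · exact T.small_range (by omega) hm (by omega) (by omega)
  have : (m % 7 = 0 ∧ 28 ≤ m) ∨ (m % 7 = 3 ∧ 31 ≤ m) ∨ (m % 7 = 1) ∨ (m % 7 = 2) ∨ (m % 7 = 4) ∨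
      (m % 7 = 5) ∨ (m % 7 = 6) ∨ (m = 21) ∨ (m = 24) := by omega
  rcases this with h | h | h | h | h | h | h | rfl | rfl
  · exact d6T2.ckill2 T (.inl le_rfl) rfl rfl d6T2_ok d6T2_W d6T2_E d6T2_U (m0 := 28) (st := 1)
      (t := m - 28) (by omega) (by change 7 ∣ _; omega) d6T2_f
  · exact c6T3.ckill3 T (.inl le_rfl) rfl rfl c6T3_ok c6T3_W c6T3_E c6T3_U (m0 := 31) (st := 1)
      (t := m - 31) (by omega) (by change 7 ∣ _; omega) c6T3_f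
  · exact c6T1.ckill1 T (.inl le_rfl) rfl rfl c6T1_ok c6T1_W c6T1_E c6T1_U c6T1_Y _ _
      (t := (m - 22) / 7) (by omega) c6T1_f22
  · exact c6T1.ckill1 T (.inl le_rfl) rfl rfl c6T1_ok c6T1_W c6T1_E c6T1_U c6T1_Y _ _
      (t := (m - 23) / 7) (by omega) c6T1_f23
  · exact c6T1.ckill1 T (.inl le_rfl) rfl rfl c6T1_ok c6T1_W c6T1_E c6T1_U c6T1_Y _ _
      (t := (m - 25) / 7) (by omega) c6T1_f25
  · exact c6T1.ckill1 T (.inl le_rfl) rfl rfl c6T1_ok c6T1_W c6T1_E c6T1_U c6T1_Y _ _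
      (t := (m - 26) / 7) (by omega) c6T1_f26
  · exact c6T1.ckill1 T (.inl le_rfl) rfl rfl c6T1_ok c6T1_W c6T1_E c6T1_U c6T1_Y _ _
      (t := (m - 27) / 7) (by omega) c6T1_f27
  · exact p6m21.kill T p6m21_ok p6m21_W p6m21_U p6m21_Y p6m21_loc p6m21_fin
  · exact p6m24.kill T p6m24_ok p6m24_W p6m24_U p6m24_Y p6m24_loc p6m24_fin

theorem five (T : Code m 5) (hm : 3 ≤ m) (h15 : m ≠ 15) : False := by
  by_cases h0 : m ≤ 14 ∧ m ≠ 13
  · exact T.small_range (by omega) hm (by omega) (by omega)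
  have : (m % 3 = 0 ∧ 24 ≤ m) ∨ (m % 3 = 1 ∧ 16 ≤ m) ∨ (m % 3 = 2 ∧ 17 ≤ m) ∨ (m = 13) ∨
      (m = 18) ∨ (m = 21) := by omega
  rcases this with h | h | h | rfl | rfl | rfl
  · exact d5T2.ckill2 T (.inl le_rfl) rfl rfl d5T2_ok d5T2_W d5T2_E d5T2_U (m0 := 24) (st := 1)
      (t := m - 24) (by omega) (by change 6 ∣ _; omega) d5T2_f
  · exact c5T1.ckill1 T (.inl le_rfl) rfl rfl c5T1_ok c5T1_W c5T1_E c5T1_U c5T1_Y _ _
      (t := (m - 16) / 3) (by omega) c5T1_f16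
  · exact c5T1.ckill1 T (.inl le_rfl) rfl rfl c5T1_ok c5T1_W c5T1_E c5T1_U c5T1_Y _ _
      (t := (m - 17) / 3) (by omega) c5T1_f17
  · exact p5m13.kill T p5m13_ok p5m13_W p5m13_U p5m13_Y p5m13_loc p5m13_fin
  · exact p5m18.kill T p5m18_ok p5m18_W p5m18_U p5m18_Y p5m18_loc p5m18_fin
  · exact p5m21.kill T p5m21_ok p5m21_W p5m21_U p5m21_Y p5m21_loc p5m21_fin

/-- no tiling for radius at least five, except possibly radius five in dimension fifteen -/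
theorem five_le {s : ℕ} (T : Code m s) (hs : 5 ≤ s) (hm : 3 ≤ m) (hx : ¬ (s = 5 ∧ m = 15)) :
    False := by
  have : s = 5 ∨ s = 6 ∨ 7 ≤ s := by omega
  rcases this with rfl | rfl | h
  · exact T.five hm (by omega)
  · exact T.six hm
  · exact T.seven_le h hm

end Code

end Pool.Agent.Lib.MP_a6e91d_co
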