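import Pool.Agent.Lib.MP_a6e91d_co.NL.Main
import Pool.Agent.Lib.MP_a6e91d_co.LP

set_option autoImplicit false

namespace Pool.Agent.Lib.MP_a6e91d_co
open Finset

variable {m : ℕ}

def chkE (tT tC : Trie) (A : List ℕ) : Bool :=
  forceZ (oddL A) fun o => decide (o ≠ 0) || decide (tT.eval A 0 ≤ tC.eval A 0)

namespace Code
variable {s : ℕ} (T : Code m s)

theorem sum_pl_Pe (n : ℕ) (l : List (List ℕ × ℤ)) :
    ∑ u ∈ T.L n, pl l (ab u) = (l.map fun p => p.2 * T.Pe n p.1).sum := by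
  simpa [Pe] using sum_pl (T.L n) (fun _ => 1) l

theorem lp_main (tT tC tD : Trie) (o1 o2 : ℤ) (ho1 : o1 = 0) (ho2 : o2 = 0)
    (b : ℕ) (hb : 2 * s + 2 ≤ b ∨ m ≤ b) (okT : tT.ok (s + 1) = true)
    (okC : tC.ok (s + 2) = true) (okD : tD.ok (s + 1) = true)
    (hW : allP (chkW tT tC o2) (2 * s + 2) b (2 * s + 2) [] = true)
    (hE : allP (chkE tT tC) (2 * s + 2) b (2 * s + 2) [] = true)
    (hU : allP (chkU tC tD o1) (2 * s + 1) b (2 * s + 1) [] = true)
    {m0 st t : ℤ} (h : (m : ℤ) = m0 + st * t) :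
    (tT.paths.map fun p => p.2 * T.Pe (2 * s + 2) p.1).sum ≤ ev t (rhsP m0 st tC tD o1 o2) := by
  subst ho1 ho2
  have h1 : ∑ w ∈ T.L (2 * s + 2), pl tT.paths (ab w) ≤ ∑ w ∈ T.L (2 * s + 2),
      pl tC.paths (ab w) := by
    refine sum_le_sum fun w hw => ?_
    obtain ⟨l, hl, e1, e2⟩ := exists_list _ hW (T.mem_L.1 hw).1 hb
    obtain ⟨l', hl', e1', e2'⟩ := exists_list _ hE (T.mem_L.1 hw).1 hb
    simp only [chkW, forceZ_eq, e2, Bool.or_eq_true, decide_eq_true_eq, Bool.cond_decide,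
      eval_eq_pl _ (Trie.ok_okL okT) e1, eval_eq_pl _ (Trie.ok_okL okC) e1] at hl
    simp only [chkE, forceZ_eq, e2', Bool.or_eq_true, decide_eq_true_eq,
      eval_eq_pl _ (Trie.ok_okL okT) e1', eval_eq_pl _ (Trie.ok_okL okC) e1'] at hl'
    split_ifs at hl <;> omega
  have h3 : ∑ u ∈ T.L (2 * s + 1), (0 : ℤ) ≤ ∑ u ∈ T.L (2 * s + 1),
      (pl tC.paths (ab u) + pl tD.paths (ab u)) := by
    refine sum_le_sum fun w hw => ?_
    obtain ⟨l, hl, e1, e2⟩ := exists_list _ hU (T.mem_L.1 hw).1 (by omega)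
    simp only [chkU, e2, decide_eq_true_eq, Bool.cond_decide,
      eval_eq_pl _ (Trie.ok_okL okD) e1, eval_eq_pl _ (Trie.ok_okL okC) e1] at hl
    split_ifs at hl <;> omega
  simp only [sum_add_distrib, T.sum_pl_Pe, sum_const_zero] at h1 h3
  have a1 := Trie.ev_poly h tC 0
  have a2 := Trie.ev_poly h tD 0
  have f0 : Fm m 0 = 1 := by simp [Fm]
  simp only [f0, one_mul, zero_add] at a1 a2
  have b1 : (tC.paths.map fun p => p.2 * Fm m p.1.length).sum =
      (tC.paths.map fun p => p.2 * T.Pe (2 * s + 1) p.1).sum +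
      (tC.paths.map fun p => p.2 * T.Pe (2 * s + 2) p.1).sum := by
    rw [← List.sum_map_add]
    congr 1
    refine List.map_congr_left fun p hp => ?_
    rw [← T.Pe_two (Trie.ok_mem okC hp).1 (Trie.ok_mem okC hp).2, mul_add]
  have b2 : (tD.paths.map fun p => p.2 * Fm m p.1.length).sum =
      (tD.paths.map fun p => p.2 * T.Pe (2 * s + 1) p.1).sum := by
    congr 1
    refine List.map_congr_left fun p hp => ?_
    rw [← T.Pe_one (Trie.ok_mem okD hp).1 (Trie.ok_mem okD hp).2]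
  simp only [rhsP, ev_padd, ev_psc, ev_FmP h, a1, a2, b1, b2]
  linarith

end Code

namespace Cert
variable (c : Cert)

def E : Bool := allP (chkE c.tT c.tC) (2 * c.s + 2) c.b (2 * c.s + 2) []

variable (T : Code m c.s) (hb : 2 * c.s + 2 ≤ c.b ∨ m ≤ c.b) (ho1 : c.o1 = 0) (ho2 : c.o2 = 0)
  (hok : c.ok = true) (hW : c.W = true) (hE : c.E = true) (hU : c.U = true)
include T hb ho1 ho2 hok hW hE hU

theorem ckill2 {m0 st t : ℕ} (h : m = m0 + st * t) (hd : c.s + 1 ∣ 2 * m)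
    (hf : c.fin2 m0 st = true) : False := by
  simp only [ok, Bool.and_eq_true, Nat.ble_eq, decide_eq_true_eq] at hok
  simp only [fin2, Bool.and_eq_true, decide_eq_true_eq] at hf
  have h' : (m : ℤ) = m0 + st * t := by exact_mod_cast h
  have a := T.lp_main _ _ _ _ _ ho1 ho2 _ hb hok.1.1.1.2 hok.1.1.2 hok.1.2 hW hE hU h'
  have b := ev_negP (Int.natCast_nonneg t) hf.2
  have d := mul_le_mul_of_nonneg_left (T.T2_lower hd) hok.2.le
  simp only [hf.1, List.map_cons, List.map_nil, List.sum_cons, List.sum_nil, add_zero] at a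
  simp only [ev_padd, ev_psc, ev_pmul, ev_FmP h', ev] at b
  have a' := mul_le_mul_of_nonneg_left a (show (0 : ℤ) ≤ c.s + 1 by positivity)
  rw [h'] at d
  linarith

theorem ckill3 {m0 st t : ℕ} (h : m = m0 + st * t) (hd : c.s + 1 ∣ 2 * m + 1)
    (hf : c.fin3 m0 st = true) : False := by
  simp only [ok, Bool.and_eq_true, Nat.ble_eq, decide_eq_true_eq] at hok
  simp only [fin3, Bool.and_eq_true, decide_eq_true_eq] at hf
  have h' : (m : ℤ) = m0 + st * t := by exact_mod_cast h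
  have a := T.lp_main _ _ _ _ _ ho1 ho2 _ hb hok.1.1.1.2 hok.1.1.2 hok.1.2 hW hE hU h'
  have b := ev_negP (Int.natCast_nonneg t) hf.2
  have d := mul_le_mul_of_nonneg_left (T.T3_lower (n := c.s - 1) (by omega) hd) hok.2.le
  simp only [hf.1, List.map_cons, List.map_nil, List.sum_cons, List.sum_nil, add_zero] at a
  simp only [ev_padd, ev_psc, ev_pmul, ev_FmP h', ev] at b
  have a' := mul_le_mul_of_nonneg_left a (show (0 : ℤ) ≤ c.s + 1 by positivity)
  rw [h'] at d
  linarith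

theorem ckill1_loc (hY : c.Y = true) {m0 st t : ℕ} (k0 k1 : ℤ) (h : m = m0 + st * t)
    (hf : c.fin1 m0 st k0 k1 = true)
    (e2 : ∑ x ∈ sph m c.s, T.K x * T.K x ≤ ∑ y ∈ sph m (c.s + 1), (1 + T.Kt y)) : False := by
  simp only [ok, Bool.and_eq_true, Nat.ble_eq, decide_eq_true_eq] at hok
  have h' : (m : ℤ) = m0 + st * t := by exact_mod_cast h
  have a := T.lp_main _ _ _ _ _ ho1 ho2 _ hb hok.1.1.1.2 hok.1.1.2 hok.1.2 hW hE hU h'
  have b := ev_negP (Int.natCast_nonneg t) hf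
  simp only [ev_padd, ev_psc, ev_pmul, ev_QP h', ev, Nat.factorial_succ] at b
  have d : c.den * ∑ y ∈ sph m (c.s + 1), (T.Kt y : ℤ) ≤
      (c.tT.paths.map fun p => p.2 * T.Pe (2 * c.s + 2) p.1).sum := by
    rw [List.map_congr_left fun p hp => congrArg (p.2 * ·)
      (T.Pe_Kt (Trie.ok_mem hok.1.1.1.2 hp).1 (Trie.ok_mem hok.1.1.1.2 hp).2), ← sum_pl, mul_sum]
    refine sum_le_sum fun y hy => ?_
    obtain ⟨l, hl, e1, _⟩ := exists_list _ hY (mem_sph.1 hy) (by omega)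
    simp only [chkY, decide_eq_true_eq, eval_eq_pl _ (Trie.ok_okL hok.1.1.1.2) e1] at hl
    rw [mul_comm]
    exact mul_le_mul_of_nonneg_left hl (Int.natCast_nonneg _)
  have e1 := T.sum_K
  rw [sum_add_distrib] at e2
  simp only [sum_const, smul_eq_mul, mul_one] at e2
  zify at e1 e2
  set k : ℤ := k0 + t * k1 with hk
  have f : 0 ≤ ∑ x ∈ sph m c.s, ((T.K x : ℤ) * T.K x - (2 * k + 1) * T.K x + k * (k + 1)) := by
    refine sum_nonneg fun x _ => ?_
    have : (0 : ℤ) ≤ ((T.K x : ℤ) - k) * (T.K x - k - 1) := by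
      by_cases h : (T.K x : ℤ) - k ≤ 0
      · exact mul_nonneg_of_nonpos_of_nonpos h (by omega)
      · exact mul_nonneg (by omega) (by omega)
    linarith
  rw [sum_add_distrib, sum_sub_distrib, ← mul_sum, e1, sum_const, nsmul_eq_mul] at f
  replace f := f.trans (add_le_add_left (sub_le_sub_right e2 _) _)
  have a' := mul_le_mul_of_nonneg_left (d.trans a)
    (show (0 : ℤ) ≤ (c.s + 1) * c.s.factorial by positivity)
  have f' := mul_nonneg (mul_nonneg hok.2.le
    (show (0 : ℤ) ≤ (c.s + 1) * c.s.factorial by positivity)) f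
  unfold S at b
  push_cast at b
  have k' : k0 = k - t * k1 := by rw [hk]; ring
  clear_value k
  subst k'
  linarith

theorem ckill1 (hY : c.Y = true) {m0 st t : ℕ} (k0 k1 : ℤ) (h : m = m0 + st * t)
    (hf : c.fin1 m0 st k0 k1 = true) : False := by
  refine T.no_drift (fun z => ∑ x ∈ sph m c.s, (T.sh z).K x * (T.sh z).K x)
    (fun z y => 1 + (T.sh z).Kt y)
    (∑ _y ∈ sph m (c.s + 1), (1 + (sph m (2 * c.s + 2)).card))
    (fun z hz => ?_) (fun z _ => ?_) (fun z _ => ?_)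
  · refine sum_congr rfl fun x hx => ?_
    have : ∀ u ∈ (T.sh z).up (2 * c.s + 1) x, 1 + (T.sh (u + z)).Kt (x - u) = (T.sh z).K x := by
      intro u hu
      have := T.shift_back hz (mem_sph.1 hx) hu (fun _ => (1 : ℕ))
      simpa [Code.K, Code.Kt] using this.symm
    rw [sum_congr rfl this, sum_const, smul_eq_mul]
    rfl
  · refine sum_le_sum fun y _ => Nat.add_le_add_left ?_ _
    exact card_le_card fun w hw => mem_sph.2 ((T.sh z).mem_up.1 hw).1.1
  · by_contra h'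
    exact c.ckill1_loc (T.sh z) hb ho1 ho2 hok hW hE hU hY k0 k1 h hf (not_lt.1 h')

end Cert

end Pool.Agent.Lib.MP_a6e91d_co
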