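import Pool.Agent.Lib.MP_a6e91d_co.NL.Basic
import Pool.Agent.Lib.MP_a6e91d_co.Rsmall

set_option autoImplicit false

namespace Pool.Agent.Lib.MP_a6e91d_co
open Finset

variable {m : ℕ}

variable {s : ℕ} (T : Code m s)

namespace Code

theorem up_mono {n : ℕ} {x y : V m} (h : Le x y) : T.up n y ⊆ T.up n x := by
  intro u hu
  rw [mem_up] at hu ⊢
  exact ⟨hu.1, h.trans hu.2⟩

theorem one_le_K (hm : 1 ≤ m) {x : V m} (hx : nrm x = s) : 1 ≤ T.K x := by
  have h := T.sum_sup hx
  have h2 := sup_le x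
  by_contra h0
  have : T.up (2 * s + 1) x = ∅ := card_eq_zero.1 (by unfold K at h0; omega)
  rw [this, sum_empty] at h
  omega

theorem isUp_of_zero {x : V m} {i : Fin m} (hi : x i = 0) (b : Bool) : IsUp x (i, b) := by
  simp only [IsUp, hi, sg]; split_ifs <;> simp

theorem two_le_K {x : V m} (hx : nrm x = s) {i : Fin m} (hi : x i = 0) : 2 ≤ T.K x := by
  have h1 := isUp_of_zero hi true
  have h2 := isUp_of_zero hi false
  obtain ⟨u, hu⟩ := T.exists_up (y := x + dir (i, true)) (by rw [h1.nrm_eq, hx])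
  obtain ⟨u', hu'⟩ := T.exists_up (y := x + dir (i, false)) (by rw [h2.nrm_eq, hx])
  have hm : u ∈ T.up (2 * s + 1) (x + dir (i, true)) := by rw [hu]; exact mem_singleton_self _
  have hm' : u' ∈ T.up (2 * s + 1) (x + dir (i, false)) := by rw [hu']; exact mem_singleton_self _
  refine one_lt_card.2 ⟨u, T.up_mono h1.le hm, u', T.up_mono h2.le hm', ?_⟩
  rintro rfl
  have a := (T.mem_up.1 hm).2 i
  have b := (T.mem_up.1 hm').2 i
  simp only [dir, sg, Pi.add_apply, Pi.single_eq_same, hi, if_true, Bool.false_eq_true,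
    if_false] at a b
  omega

theorem K_mul_K {x : V m} (hx : nrm x + 1 = s) {i : Fin m} (hi : x i = 0) :
    2 * m ≤ T.K (x + dir (i, false)) * T.K (x + dir (i, true)) + sup x + 2 := by
  classical
  set v := x + dir (i, true) with hv
  set v' := x + dir (i, false) with hv'
  have hup := isUp_of_zero hi true
  have hup' := isUp_of_zero hi false
  have hnv : nrm v = s := by rw [hv, hup.nrm_eq, hx]
  have hnv' : nrm v' = s := by rw [hv', hup'.nrm_eq, hx]
  have hvj : ∀ j, j ≠ i → v j = x j := fun j hj => by simp [hv, dir, Pi.single_eq_of_ne hj]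
  have hvj' : ∀ j, j ≠ i → v' j = x j := fun j hj => by simp [hv', dir, Pi.single_eq_of_ne hj]
  have hvi : v i = 1 := by simp [hv, dir, sg, hi]
  have hvi' : v' i = -1 := by simp [hv', dir, sg, hi]
  set D := univ.filter fun d : Fin m × Bool => IsUp x d ∧ d.1 ≠ i with hD
  have hDc : 2 * m ≤ D.card + sup x + 2 := by
    have h1 := card_isUp x
    have h2 : (univ.filter fun d => IsUp x d) ⊆ D ∪ {(i, true), (i, false)} := by
      intro d hd
      rw [mem_filter] at hd
      by_cases h : d.1 = i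
      · obtain ⟨j, b⟩ := d
        simp only at h
        subst h
        cases b <;> simp
      · exact mem_union_left _ (mem_filter.2 ⟨mem_univ _, hd.2, h⟩)
    have h3 := (card_le_card h2).trans (card_union_le _ _)
    have h4 : ({(i, true), (i, false)} : Finset (Fin m × Bool)).card ≤ 2 := card_le_two
    omega
  have hex : ∀ d ∈ D, ∃ p ∈ T.up (2 * s + 1) v' ×ˢ T.up (2 * s + 1) v,
      Le (v' + dir d) p.1 ∧ Le (v + dir d) p.2 := by
    intro d hd
    rw [hD, mem_filter] at hd
    have h1 : IsUp v d := by unfold IsUp; rw [hvj _ hd.2.2]; exact hd.2.1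
    have h2 : IsUp v' d := by unfold IsUp; rw [hvj' _ hd.2.2]; exact hd.2.1
    obtain ⟨u, hu⟩ := T.exists_up (y := v + dir d) (by rw [h1.nrm_eq, hnv])
    obtain ⟨u', hu'⟩ := T.exists_up (y := v' + dir d) (by rw [h2.nrm_eq, hnv'])
    have hm : u ∈ T.up (2 * s + 1) (v + dir d) := by rw [hu]; exact mem_singleton_self _
    have hm' : u' ∈ T.up (2 * s + 1) (v' + dir d) := by rw [hu']; exact mem_singleton_self _
    exact ⟨(u', u), mem_product.2 ⟨T.up_mono h2.le hm', T.up_mono h1.le hm⟩,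
      (T.mem_up.1 hm').2, (T.mem_up.1 hm).2⟩
  choose! f hf hf' using hex
  have hinj : Set.InjOn f D := by
    intro d hd d' hd' e
    by_contra hne
    have hd0 := hd
    have hd0' := hd'
    rw [mem_coe, hD, mem_filter] at hd hd'
    obtain ⟨a1, a2⟩ := hf' d hd0
    obtain ⟨b1, b2⟩ := hf' d' hd0'
    rw [← e] at b1 b2
    have hp := mem_product.1 (hf d hd0)
    have hu1 := T.mem_up.1 hp.1
    have hu2 := T.mem_up.1 hp.2
    set u' := (f d).1
    set u := (f d).2
    obtain ⟨j, b⟩ := d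
    obtain ⟨j', b'⟩ := d'
    have hj : j ≠ i := hd.2.2
    have hj' : j' ≠ i := hd'.2.2
    have hU : (x j + sg b).natAbs = (x j).natAbs + 1 := hd.2.1
    have hU' : (x j' + sg b').natAbs = (x j').natAbs + 1 := hd'.2.1
    by_cases hjj : j = j'
    · subst hjj
      have c1 := a1 j
      have c2 := b1 j
      simp only [dir, Pi.add_apply, Pi.single_eq_same, hvj' j hj] at c1 c2
      have hb : b ≠ b' := fun h => hne (by rw [h])
      unfold sg at *
      cases b <;> cases b' <;> simp at hb hU hU' c1 c2 <;> omega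
    · have hz : ∀ w z : V m, (∀ k, k ≠ i → z k = x k) → Le (z + dir (j, b)) w →
          Le (z + dir (j', b')) w → Le (x + dir (j, b) + dir (j', b')) w := by
        intro w z hz c1 c2 k
        by_cases hk : k = i
        · subst hk
          simp [dir, Pi.single_eq_of_ne hj.symm, Pi.single_eq_of_ne hj'.symm, hi]
        · by_cases hk1 : k = j
          · subst hk1
            simpa [dir, Pi.single_eq_of_ne hjj, hz k hk] using c1 k
          · simpa [dir, Pi.single_eq_of_ne hk1, hz k hk] using c2 k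
      have hn : nrm (x + dir (j, b) + dir (j', b')) = s + 1 := by
        have h1 : IsUp x (j, b) := hU
        have h2 : IsUp (x + dir (j, b)) (j', b') := by
          unfold IsUp
          simpa [dir, Pi.single_eq_of_ne (Ne.symm hjj)] using hU'
        rw [h2.nrm_eq, h1.nrm_eq, hx]
      obtain ⟨w, hw⟩ := T.exists_up hn
      have e1 : u ∈ T.up (2 * s + 1) _ := T.mem_up.2 ⟨hu2.1, hz u v hvj a2 b2⟩
      have e2 : u' ∈ T.up (2 * s + 1) _ := T.mem_up.2 ⟨hu1.1, hz u' v' hvj' a1 b1⟩
      rw [hw, mem_singleton] at e1 e2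
      have c1 := hu1.2 i
      have c2 := hu2.2 i
      rw [e1] at c2
      rw [e2] at c1
      rw [hvi'] at c1
      rw [hvi] at c2
      omega
  have := card_le_card_of_injOn f (fun d hd => hf d hd) hinj
  rw [card_product] at this
  unfold K
  omega

theorem K_flip {v : V m} (hv : nrm v = s) {i : Fin m} (hi : (v i).natAbs = 1) :
    2 * m ≤ T.K v * T.K (v + Pi.single i (-2 * v i)) + sup v + 1 := by
  have hx0 : (v + Pi.single i (-v i) : V m) i = 0 := by simp
  have hn := nrm_add_single v i (-v i)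
  have hn' : nrm (v + Pi.single i (-v i)) + 1 = s := by
    simp only [add_neg_cancel, Int.natAbs_zero] at hn; omega
  have h := T.K_mul_K hn' hx0
  have hs := fun b => sup_add_dir (isUp_of_zero hx0 b)
  simp only [hx0, if_true] at hs
  rcases Int.natAbs_eq_iff.1 hi with h1 | h1
  · have e1 : v + Pi.single i (-v i) + dir (i, true) = v := by
      rw [add_assoc, dir, ← Pi.single_add, h1]; simp [sg]
    have e2 : v + Pi.single i (-v i) + dir (i, false) = v + Pi.single i (-2 * v i) := by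
      rw [add_assoc, dir, ← Pi.single_add, h1]; simp [sg]
    have := hs true
    rw [e1] at this
    rw [e1, e2, mul_comm (T.K _)] at h
    omega
  · have e1 : v + Pi.single i (-v i) + dir (i, false) = v := by
      rw [add_assoc, dir, ← Pi.single_add, h1]; simp [sg]
    have e2 : v + Pi.single i (-v i) + dir (i, true) = v + Pi.single i (-2 * v i) := by
      rw [add_assoc, dir, ← Pi.single_add, h1]; simp [sg]
    have := hs false
    rw [e1] at this
    rw [e1, e2] at h
    omega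

end Code

namespace Code

theorem R_gen {n : ℕ} (T : Code m (n + 1)) (hm : 1 ≤ m) (c κ τ P : ℕ)
    (hP : P + min m (n + 1) + 1 ≤ 2 * m)
    (h1 : ∀ a b : ℕ, P ≤ a * b → τ ≤ c * (a + b))
    (h0 : ∀ v : V m, nrm v = n + 1 → 2 * sup v ≤ n + 1 → κ ≤ 2 * c * T.K v) (hκ : κ ≤ τ) :
    τ * S m (n + 1) + κ * S m n ≤ 2 * c * S m (n + 2) + τ * S m n := by
  classical
  have : Nonempty (Fin m) := ⟨⟨0, hm⟩⟩
  set Z := (sph m (n + 1)).filter fun v => ∀ i, (v i).natAbs ≠ 1 with hZ
  set O := (sph m (n + 1)).filter fun v => ¬ ∀ i, (v i).natAbs ≠ 1 with hO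
  have hc : Z.card + O.card = S m (n + 1) := card_filter_add_card_filter_not _
  have hs : ∑ v ∈ Z, T.K v + ∑ v ∈ O, T.K v = S m (n + 2) := by
    rw [sum_filter_add_sum_filter_not]; exact T.sum_K
  have hZ1 : κ * Z.card ≤ 2 * c * ∑ v ∈ Z, T.K v := by
    rw [mul_sum, mul_comm, ← smul_eq_mul]
    refine card_nsmul_le_sum _ _ _ fun v hv => ?_
    rw [hZ, mem_filter, mem_sph] at hv
    exact h0 v hv.1 (hv.1 ▸ two_mul_sup_le hv.2)
  have hZ2 : Z.card ≤ S m n := card_noOne_le hm n
  let ix : V m → Fin m := fun v => Classical.epsilon fun i => (v i).natAbs = 1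
  let f : V m → V m := fun v => v + Pi.single (ix v) (-2 * v (ix v))
  have habs : ∀ v k, (f v k).natAbs = (v k).natAbs := by
    intro v k
    by_cases hk : k = ix v
    · rw [hk]; simp only [f, Pi.add_apply, Pi.single_eq_same]; omega
    · simp [f, Pi.single_eq_of_ne hk]
  have hix : ∀ v, ix (f v) = ix v := fun v => by simp only [ix, habs]
  have hff : ∀ v, f (f v) = v := by
    intro v
    have : f (f v) = f v + Pi.single (ix v) (-2 * f v (ix v)) := by rw [← hix v]
    rw [this]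
    funext k
    by_cases hk : k = ix v
    · rw [hk]; simp only [f, Pi.add_apply, Pi.single_eq_same]; ring
    · simp [f, Pi.single_eq_of_ne hk]
  have hfO : ∀ v ∈ O, f v ∈ O := by
    intro v hv
    rw [hO, mem_filter, mem_sph] at hv ⊢
    simpa only [nrm, habs] using hv
  have hO1 : ∑ v ∈ O, T.K (f v) = ∑ v ∈ O, T.K v :=
    sum_bij' (fun v _ => f v) (fun v _ => f v) hfO hfO (fun v _ => hff v) (fun v _ => hff v)
      (fun _ _ => rfl)
  have hO2 : τ * O.card ≤ 2 * c * ∑ v ∈ O, T.K v := by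
    have : 2 * c * ∑ v ∈ O, T.K v = ∑ v ∈ O, c * (T.K v + T.K (f v)) := by
      rw [← mul_sum, sum_add_distrib, hO1]; ring
    rw [this, mul_comm, ← smul_eq_mul]
    refine card_nsmul_le_sum _ _ _ fun v hv => h1 _ _ ?_
    rw [hO, mem_filter, mem_sph] at hv
    have hi : (v (ix v)).natAbs = 1 :=
      Classical.epsilon_spec (p := fun i => (v i).natAbs = 1) (by simpa using hv.2)
    have a := T.K_flip hv.1 hi
    have b := sup_le v
    have b' := sup_add_exc v
    have := hv.1
    simp only [f]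
    omega
  obtain ⟨δ, rfl⟩ := Nat.exists_eq_add_of_le hκ
  have := Nat.mul_le_mul_left δ hZ2
  rw [← hc, ← hs]
  nlinarith

theorem R_two {n : ℕ} (T : Code m (n + 1)) (hm : n + 1 < 2 * m) (c τ P : ℕ)
    (hP : P + min m (n + 1) + 1 ≤ 2 * m) (h1 : ∀ a b : ℕ, P ≤ a * b → τ ≤ c * (a + b))
    (hκ : 4 * c ≤ τ) :
    τ * S m (n + 1) + 4 * c * S m n ≤ 2 * c * S m (n + 2) + τ * S m n := by
  refine T.R_gen (by omega) c _ τ P hP h1 (fun v hv h => ?_) hκ
  obtain ⟨i, hi⟩ := exists_zero_of_sup_lt (v := v) (by omega)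
  have := T.two_le_K hv hi
  nlinarith

theorem R_three {n : ℕ} (T : Code m (n + 1)) (hm : 1 ≤ m) (κ τ P : ℕ)
    (hP : P + min m (n + 1) + 1 ≤ 2 * m) (h1 : ∀ a b : ℕ, P ≤ a * b → τ ≤ (n + 2) * (a + b))
    (hκ : κ ≤ τ) (hκ' : κ + n + 1 ≤ 4 * m) :
    τ * S m (n + 1) + κ * S m n ≤ 2 * (n + 2) * S m (n + 2) + τ * S m n := by
  refine T.R_gen hm _ κ τ P hP h1 (fun v hv h => ?_) hκ
  have h2 := T.K_eq hv
  have h3 := sup_add_exc v
  have : 2 * (n + 2) * T.K v = 2 * ((n + 1 + 1) * T.K v) := by ring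
  omega

include T in
theorem R_one (hm : 1 ≤ m) : 2 * S m s ≤ S m (s + 1) + N m s m := by
  have h : ∀ v ∈ sph m s, 2 ≤ T.K v + if sup v = m then 1 else 0 := by
    intro v hv
    rw [mem_sph] at hv
    split_ifs with h
    · have := T.one_le_K hm hv; omega
    · obtain ⟨i, hi⟩ := exists_zero_of_sup_lt (v := v) (lt_of_le_of_ne (sup_le v) h)
      exact T.two_le_K hv hi
  have := card_nsmul_le_sum _ _ _ h
  rw [sum_add_distrib, T.sum_K, ← card_filter, smul_eq_mul, mul_comm] at this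
  exact this

end Code

namespace Code

include T in
theorem regimeA (hm : 3 ≤ m) (h : 2 * m ≤ s + 1) : False := by
  have := T.R_one (by omega)
  have := regimeA_ineq hm h
  omega

include T in
theorem R_big (hs : 10 ≤ s) (hm : 3 ≤ m) (h : 2 * m + 2 ≤ s * (s + 1)) : False := by
  by_cases hA : 2 * m ≤ s + 1
  · exact T.regimeA hm hA
  obtain ⟨n, rfl⟩ : ∃ n, s = n + 1 := ⟨s - 1, by omega⟩
  have hrec := S_rec (m := m) n
  have hrat := S_ratio (m := m) n
  have hpos := S_pos (m := m) (by omega) (n + 1)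
  have hpos0 := S_pos (m := m) (by omega) n
  set a := S m n
  set b := S m (n + 1)
  set c := S m (n + 2)
  by_cases hB : 2 * m + 4 * (n + 1) ≤ (n + 1) ^ 2
  · have key := T.R_two (by omega) (n + 1) (4 * m + 2 * (n + 1)) (2 * m - 1 - min m (n + 1))
      (by omega) (fun a b hab => le_mul_add_of_sq ?_ hab) (by omega)
    · have h1 : (2 * m + (n + 1) * (n + 2)) * b + 2 * (n + 1) * a ≤ (n + 2) * (2 * m) * a := by
        nlinarith
      have h2 : 2 * m * ((2 * m + (n + 1) * (n + 2)) * b) ≤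
          (n + 2) * (2 * m) * ((n + 1) * b) := by
        calc _ ≤ 2 * m * ((n + 2) * (2 * m) * a) := Nat.mul_le_mul_left _ (by omega)
          _ = (n + 2) * (2 * m) * (2 * m * a) := by ring
          _ ≤ _ := Nat.mul_le_mul_left _ hrat
      have h3 : 0 < m * m * b := by positivity
      nlinarith
    · by_cases hc : m ≤ n + 1
      · rw [min_eq_left hc]
        obtain ⟨k, rfl⟩ : ∃ k, m = k + 1 := ⟨m - 1, by omega⟩
        rw [show 2 * (k + 1) - 1 - (k + 1) = k by omega]
        obtain ⟨t, rfl⟩ : ∃ t, n = t + 9 := ⟨n - 9, by omega⟩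
        have e1 : (0 : ℤ) ≤ (2 * (k : ℤ) - t - 10) * (t + 9 - k) :=
          mul_nonneg (by omega) (by omega)
        have e2 : (0 : ℤ) ≤ (2 * (k : ℤ) - t - 10) * (t * t + 14 * t) :=
          mul_nonneg (by omega) (by positivity)
        zify
        nlinarith [sq_nonneg (t : ℤ), mul_nonneg (sq_nonneg (t : ℤ)) (Int.natCast_nonneg t)]
      · rw [min_eq_right (by omega)]
        obtain ⟨k, hk⟩ : ∃ k, 2 * m = k + 1 + (n + 1) := ⟨2 * m - 1 - (n + 1), by omega⟩
        rw [show 2 * m - 1 - (n + 1) = k by omega, show 4 * m = 2 * (k + 1 + (n + 1)) by omega]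
        rw [hk] at hB
        have e0 : n ≤ k := by omega
        obtain ⟨t, rfl⟩ : ∃ t, n = t + 9 := ⟨n - 9, by omega⟩
        have e1 : (0 : ℤ) ≤ ((k : ℤ) - t - 9) * ((t + 10) ^ 2 - 5 * (t + 10) - 1 - k) :=
          mul_nonneg (by omega) (by zify at hB; nlinarith)
        have e2 : (0 : ℤ) ≤ ((k : ℤ) - t - 9) * (2 * t + 20) :=
          mul_nonneg (by omega) (by positivity)
        zify
        nlinarith [sq_nonneg (t : ℤ), mul_nonneg (sq_nonneg (t : ℤ)) (Int.natCast_nonneg t)]
  have hmn : n + 1 ≤ m := by nlinarith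
  obtain ⟨k, hk⟩ : ∃ k, 2 * m = k + 1 + (n + 1) := ⟨2 * m - 1 - (n + 1), by omega⟩
  by_cases hC : 2 * m ≤ (n + 1) ^ 2 + 1
  · have key := T.R_three (by omega) (4 * m - (n + 1)) (4 * m + 6) k
      (by omega) (fun a b hab => le_mul_add_of_sq ?_ hab) (by omega) (by omega)
    · obtain ⟨q, hq⟩ : ∃ q, 4 * m = q + (n + 1) := ⟨4 * m - (n + 1), by omega⟩
      rw [show 4 * m - (n + 1) = q by omega] at key
      have h1 : 6 * b ≤ (3 * n + 7) * a := by nlinarith
      have h2 : 6 * (2 * m * a) ≤ (n + 1) * ((3 * n + 7) * a) := by nlinarith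
      have h3 : (n + 1) * (3 * n + 7) < 6 * (2 * m) := by nlinarith
      nlinarith
    · rw [show 4 * m = 2 * (k + 1 + (n + 1)) by omega]
      rw [hk] at hB hC
      obtain ⟨t, rfl⟩ : ∃ t, n = t + 9 := ⟨n - 9, by omega⟩
      have e1 : (0 : ℤ) ≤ ((k : ℤ) - ((t + 10) ^ 2 - 5 * (t + 10) - 1)) *
          ((t + 10) ^ 2 - (t + 10) - k) :=
        mul_nonneg (by zify at hB; push Not at hB; nlinarith) (by zify at hC; nlinarith)
      have e2 : (0 : ℤ) ≤ ((t + 10) ^ 2 - (t + 10) - k) * ((t + 10) ^ 2 - 6 * (t + 10) + 6) :=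
        mul_nonneg (by zify at hC; nlinarith) (by nlinarith [sq_nonneg (t : ℤ)])
      zify
      nlinarith [sq_nonneg (t : ℤ), mul_nonneg (sq_nonneg (t : ℤ)) (Int.natCast_nonneg t)]
  · have key := T.R_three (by omega) (4 * m - (n + 1)) ((n + 2) * (2 * (n + 1))) k
      (by omega) (fun a b hab => Nat.mul_le_mul_left _ (le_add_of_sq ?_ hab))
      (by have : 4 * m ≤ (n + 2) * (2 * (n + 1)) := by nlinarith
          omega) (by omega)
    · obtain ⟨q, hq⟩ : ∃ q, 4 * m = q + (n + 1) := ⟨4 * m - (n + 1), by omega⟩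
      rw [show 4 * m - (n + 1) = q by omega] at key
      obtain ⟨j, hj⟩ : ∃ j, (n + 1) * (n + 1 + 1) = 2 * m + (j + 2) :=
        ⟨(n + 1) * (n + 1 + 1) - (2 * m + 2), by omega⟩
      have e : (n + 2) * (2 * (n + 1)) = 4 * m + 2 * (j + 2) := by nlinarith
      rw [e] at key
      have h1 : 2 * (j + 2) * b ≤ (3 * n + 1 + 2 * (j + 2)) * a := by nlinarith
      have h2 : 2 * (j + 2) * (2 * m * a) ≤ (n + 1) * ((3 * n + 1 + 2 * (j + 2)) * a) := by
        nlinarith
      have h3 : (n + 1) * (3 * n + 1 + 2 * (j + 2)) < 2 * (j + 2) * (2 * m) := by nlinarith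
      nlinarith
    · rw [show 2 * (n + 1) - 1 = 2 * n + 1 by omega]
      nlinarith

end Code

end Pool.Agent.Lib.MP_a6e91d_co
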