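import Pool.Agent.Lib.MP_a6e91d_co.NL.Marks
import Pool.Agent.Lib.MP_a6e91d_co.T23

set_option autoImplicit false

namespace Pool.Agent.Lib.MP_a6e91d_co

variable {m : ℕ}

namespace Code
variable {s : ℕ} (T : Code m s)

theorem Pe_identity (D : ℕ) (L : List ℕ) : ((D : ℤ) - L.sum) * T.Pe D L =
    T.Pt D 1 L + ((picks L).map fun p => T.Pt D (p.1 + 1) p.2).sum := by
  have h : ∀ u ∈ T.L D, ((D : ℤ) - L.sum) * pe (ab u) L Finset.univ = pt (ab u) 1 L Finset.univ +
      1 * ((picks L).map fun p => pt (ab u) (p.1 + 1) p.2 Finset.univ).sum := by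
    intro u hu
    have := pe_identity (ab u) L Finset.univ
    have e : ∑ i, ab u i = D := (T.mem_L.1 hu).1
    rw [e] at this
    linarith
  rw [Pe, Finset.mul_sum, Finset.sum_congr rfl h, Finset.sum_add_distrib]
  congr 1
  simp only [one_mul, Pt]
  induction picks L with
  | nil => simp
  | cons p l ih => simp only [List.map_cons, List.sum_cons, Finset.sum_add_distrib, ih]

theorem Pe_nonneg (D : ℕ) (L : List ℕ) : 0 ≤ T.Pe D L :=
  Finset.sum_nonneg fun _ _ => pe_nonneg _ _ _
theorem Pt_nonneg (D t : ℕ) (L : List ℕ) : 0 ≤ T.Pt D t L :=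
  Finset.sum_nonneg fun _ _ => pt_nonneg _ _ _ _
theorem Pe_perm (D : ℕ) {L L' : List ℕ} (h : L.Perm L') : T.Pe D L = T.Pe D L' :=
  Finset.sum_congr rfl fun _ _ => pe_perm _ h _
theorem Pt_split (D t : ℕ) (L : List ℕ) : T.Pt D t L = T.Pe D (t :: L) + T.Pt D (t + 1) L := by
  unfold Pt Pe
  rw [← Finset.sum_add_distrib]
  exact Finset.sum_congr rfl fun _ _ => pt_split _ _ _ _

theorem picks_nonneg (D : ℕ) (l : List (ℕ × List ℕ)) :
    0 ≤ (l.map fun p => T.Pt D (p.1 + 1) p.2).sum :=
  List.sum_nonneg fun x hx => by
    obtain ⟨p, _, rfl⟩ := List.mem_map.1 hx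
    exact T.Pt_nonneg _ _ _

theorem picks_ones' (D n : ℕ) (c pre : List ℕ) :
    ((picks (List.replicate (n + 1) 1 ++ c)).map fun p => T.Pt D (p.1 + 1) (pre ++ p.2)).sum =
      (n + 1) * T.Pt D 2 (pre ++ (List.replicate n 1 ++ c)) +
      ((picks c).map fun p => T.Pt D (p.1 + 1) (pre ++ (List.replicate (n + 1) 1 ++ p.2))).sum := by
  induction n generalizing pre with
  | zero =>
    simp [picks, Function.comp_def]
  | succ n ih =>
    rw [List.replicate_succ (n := n + 1), List.cons_append, picks]
    simp only [List.map_cons, List.sum_cons, List.map_map, Function.comp_def]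
    have := ih (pre ++ [1])
    simp only [List.append_assoc, List.singleton_append] at this
    rw [this]
    simp only [List.cons_append, List.replicate_succ (n := n)]
    push_cast
    ring

theorem Pe_ident_ones (D n : ℕ) (c : List ℕ) :
    ((D : ℤ) - (n + 1) - c.sum) * T.Pe D (List.replicate (n + 1) 1 ++ c) =
      T.Pe D (List.replicate (n + 2) 1 ++ c) + T.Pt D 2 (List.replicate (n + 1) 1 ++ c) +
      (n + 1) * T.Pt D 2 (List.replicate n 1 ++ c) +
      ((picks c).map fun p => T.Pt D (p.1 + 1) (List.replicate (n + 1) 1 ++ p.2)).sum := by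
  have h1 := T.Pe_identity D (List.replicate (n + 1) 1 ++ c)
  have h2 := T.picks_ones' D n c []
  simp only [List.nil_append] at h2
  rw [h2, T.Pt_split D 1] at h1
  simp only [List.sum_append, List.sum_replicate, smul_eq_mul, mul_one] at h1
  push_cast at h1 ⊢
  rw [List.replicate_succ (n := n + 1), List.cons_append]
  linarith

noncomputable def model {x s1 : ℕ} (T : Code m (x + s1)) : Model x s1 where
  PE d c n := if d ≤ 1 then T.Pe (2 * (x + s1) + 2 - d) (List.replicate (x + n) 1 ++ c) else 0
  PT d t c n := if d ≤ 1 then T.Pt (2 * (x + s1) + 2 - d) t (List.replicate (x + n) 1 ++ c) else 0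
  FF j := Fm m (x + j)
  hx := Int.natCast_nonneg x
  nnE d c n := by split_ifs; exacts [T.Pe_nonneg _ _, le_rfl]
  nnT d t c n := by split_ifs; exacts [T.Pt_nonneg _ _ _, le_rfl]
  perm d c c' n h := by split_ifs; exacts [T.Pe_perm _ (h.append_left _), rfl]
  split d t c n := by
    split_ifs
    · rw [T.Pt_split, T.Pe_perm _ List.perm_middle]
    · rfl
  cutT d t c n := by
    split_ifs with h
    · have h1 := T.Pe_identity (2 * (x + s1) + 2 - d) (t :: (List.replicate (x + n) 1 ++ c))
      rw [T.Pt_split, T.Pe_perm _ List.perm_middle]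
      simp only [picks, List.map_cons, List.sum_cons, List.map_map] at h1
      have h2 := T.picks_nonneg (2 * (x + s1) + 2 - d)
        ((picks (List.replicate (x + n) 1 ++ c)).map fun p => (p.1, t :: p.2))
      have h3 := T.Pt_nonneg (2 * (x + s1) + 2 - d) 1 (t :: (List.replicate (x + n) 1 ++ c))
      simp only [List.map_map] at h2
      simp only [List.sum_append, List.sum_replicate, smul_eq_mul, mul_one] at h1
      rw [Nat.cast_sub (by omega)] at h1
      push_cast at h1 ⊢
      linarith
    · simp
  crude d c n := by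
    split_ifs with h
    · have h1 := T.Pe_identity (2 * (x + s1) + 2 - d) (List.replicate (x + n) 1 ++ c)
      have h2 := T.picks_nonneg (2 * (x + s1) + 2 - d) (picks (List.replicate (x + n) 1 ++ c))
      have h3 := T.Pt_nonneg (2 * (x + s1) + 2 - d) 2 (List.replicate (x + n) 1 ++ c)
      rw [T.Pt_split _ 1] at h1
      simp only [List.sum_append, List.sum_replicate, smul_eq_mul, mul_one] at h1
      rw [Nat.cast_sub (by omega)] at h1
      rw [← add_assoc x, List.replicate_succ, List.cons_append]
      push_cast at h1 ⊢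
      linarith
    · simp
  ident d c n := by
    split_ifs with h
    · have h1 := T.Pe_ident_ones (2 * (x + s1) + 2 - d) (x + n) c
      rw [Nat.cast_sub (by omega)] at h1
      simp only [← add_assoc x]
      push_cast at h1 ⊢
      linarith
    · simp
  known1 c n hc h := by
    rw [if_pos le_rfl]
    have := T.Pe_one (L := List.replicate (x + n) 1 ++ c) (fun k hk => by
      rcases List.mem_append.1 hk with h | h
      exacts [(List.eq_of_mem_replicate h).ge, hc k h]) (by simp; omega)
    rw [List.length_append, List.length_replicate] at this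
    rw [show x + (c.length + n) = x + n + c.length by ring]
    exact this
  known0 c n hc h := by
    rw [if_pos le_rfl, if_pos (Nat.zero_le 1)]
    have := T.Pe_two (L := List.replicate (x + n) 1 ++ c) (fun k hk => by
      rcases List.mem_append.1 hk with h | h
      exacts [(List.eq_of_mem_replicate h).ge, hc k h]) (by simp; omega)
    rw [List.length_append, List.length_replicate] at this
    rw [show x + (c.length + n) = x + n + c.length by ring]
    exact this

end Code

namespace Code
variable {s : ℕ}

theorem T2_big (T : Code m s) (hs : 10 ≤ s) (hm : s * (s + 1) ≤ 2 * m) (hd : s + 1 ∣ 2 * m) :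
    False := by
  obtain ⟨x, rfl⟩ : ∃ x, s = x + 10 := ⟨s - 10, by omega⟩
  have hc := check0_true
  unfold check0 at hc
  split at hc
  · simp at hc
  rename_i F hF
  have hxm : x + 12 ≤ m := by nlinarith
  have h1 := T.model.run_sound _ _ _ _ _ _ hF
  have h2 := T.model.checkF_sound [110, 21, 1] 10 [11, 1] F (fun j => Fm_nonneg _)
    (Fm_pos (by omega)) (fun j hj => ?_) hc
  · rw [Model.valT_insAll] at h1
    simp only [Model.valL, Model.val, Model.valT, Model.valF, model, List.map_cons, List.map_nil,
      List.sum_cons, List.sum_nil, ev, if_true, Nat.zero_le, OfNat.ofNat_ne_zero, if_false,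
      List.append_nil, Nat.sub_zero] at h1 h2
    have h3 := T.Pe_ident_ones (2 * (x + 10) + 2) (x + 10) []
    have h4 := T.T2_lower hd
    simp only [List.append_nil, picks, List.map_nil, List.sum_nil] at h3
    have h5 := Fm_succ (m := m) (j := x + 11) (by omega)
    simp only [add_assoc, Nat.reduceAdd] at h1 h2 h3 h4 h5
    push_cast at h3 h4 h5
    linarith
  · have e := Fm_succ (m := m) (j := x + j) (by omega)
    have e2 := Fm_nonneg (m := m) (x + j)
    simp only [model, ev, ← add_assoc, e]
    zify at hm hj
    have hx : (0 : ℤ) ≤ x := by positivity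
    refine ⟨by nlinarith, mul_le_mul_of_nonneg_right ?_ e2⟩
    push_cast
    linarith

theorem T3_big (T : Code m s) (hs : 12 ≤ s) (hm : s * (s + 2) ≤ 2 * m)
    (hd : s + 1 ∣ 2 * m + 1) : False := by
  obtain ⟨x, rfl⟩ : ∃ x, s = x + 12 := ⟨s - 12, by omega⟩
  have hc := check1_true
  unfold check1 at hc
  split at hc
  · simp at hc
  rename_i F hF
  have hxm : x + 14 ≤ m := by nlinarith
  have h1 := T.model.run_sound _ _ _ _ _ _ hF
  have h2 := T.model.checkF_sound [168, 26, 1] 11 [12, 1] F (fun j => Fm_nonneg _)
    (Fm_pos (by omega)) (fun j hj => ?_) hc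
  · rw [Model.valT_insAll] at h1
    simp only [Model.valL, Model.val, Model.valT, Model.valF, model, List.map_cons, List.map_nil,
      List.sum_cons, List.sum_nil, ev, if_true, Nat.zero_le, OfNat.ofNat_ne_zero, if_false,
      List.append_nil, Nat.sub_zero] at h1 h2
    have h3 := T.Pe_ident_ones (2 * (x + 12) + 2) (x + 10) [2]
    have h4 := T.T3_lower (n := x + 11) rfl hd
    rw [T.Pe_perm _ (List.perm_append_singleton 2 _).symm] at h4
    simp only [List.append_nil, picks, List.map_nil, List.sum_nil, List.map_cons,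
      List.sum_cons] at h3
    have h5 := Fm_succ (m := m) (j := x + 12) (by omega)
    simp only [add_assoc, Nat.reduceAdd] at h1 h2 h3 h4 h5
    push_cast at h3 h4 h5
    linarith
  · have e := Fm_succ (m := m) (j := x + j) (by omega)
    have e2 := Fm_nonneg (m := m) (x + j)
    simp only [model, ev, ← add_assoc, e]
    zify at hm hj
    have hx : (0 : ℤ) ≤ x := by positivity
    refine ⟨by nlinarith, mul_le_mul_of_nonneg_right ?_ e2⟩
    push_cast
    linarith

end Code

end Pool.Agent.Lib.MP_a6e91d_co
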