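import Pool.Agent.Lib.MP_a6e91d_co.NL.T1
import Pool.Agent.Lib.MP_a6e91d_co.NL.T23
import Pool.Agent.Lib.MP_a6e91d_co.NL.Rsmall

set_option autoImplicit false

namespace Pool.Agent.Lib.MP_a6e91d_co
open Finset

variable {m s : ℕ}

theorem card_ball_le (R : ℕ) : (ball m R).card ≤ (2 * R + 1) ^ m := by
  have h : ball m R ⊆ Fintype.piFinset fun _ : Fin m => Icc (-(R : ℤ)) R := by
    intro x hx
    rw [mem_ball] at hx
    rw [Fintype.mem_piFinset]
    intro i
    have := natAbs_le_nrm x i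
    rw [mem_Icc]; omega
  refine (card_le_card h).trans_eq ?_
  rw [Fintype.card_piFinset, prod_const, card_univ, Fintype.card_fin, Int.card_Icc]
  congr 1
  omega

/-- a function of polynomial growth does not grow exponentially -/
theorem growth (f : ℕ → ℕ) (B d : ℕ) (h0 : 1 ≤ f 0) (h1 : ∀ R, (B + 1) * f R ≤ B * f (R + d))
    (h2 : ∀ R, f R ≤ (2 * R + 1) ^ m) : False := by
  have h3 : ∀ k, (B + 1) ^ k ≤ B ^ k * f (k * d) := by
    intro k
    induction k with
    | zero => simpa using h0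
    | succ k ih =>
      calc (B + 1) ^ (k + 1) = (B + 1) * (B + 1) ^ k := by ring
        _ ≤ (B + 1) * (B ^ k * f (k * d)) := Nat.mul_le_mul_left _ ih
        _ = B ^ k * ((B + 1) * f (k * d)) := by ring
        _ ≤ B ^ k * (B * f (k * d + d)) := Nat.mul_le_mul_left _ (h1 _)
        _ = B ^ (k + 1) * f ((k + 1) * d) := by rw [add_mul k 1 d, one_mul]; ring
  have hB : 0 < B := by
    rcases Nat.eq_zero_or_pos B with rfl | h
    · have := h3 1; simp at this
    · exact h
  have hB' : (0 : ℝ) < B := by exact_mod_cast hB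
  have hr : (1 : ℝ) < (B + 1) / B := by rw [lt_div_iff₀ hB']; linarith
  have hlim := tendsto_pow_const_div_const_pow_of_one_lt m hr
  have hpos : (0 : ℝ) < 1 / (2 * d + 1) ^ m := by positivity
  obtain ⟨k, hk, hk1⟩ := ((hlim.eventually (gt_mem_nhds hpos)).and
    (Filter.eventually_ge_atTop 1)).exists
  have h4 : (B + 1) ^ k ≤ B ^ k * ((2 * d + 1) ^ m * k ^ m) := by
    refine (h3 k).trans (Nat.mul_le_mul_left _ ((h2 _).trans ?_))
    rw [← mul_pow]
    exact Nat.pow_le_pow_left (by nlinarith) _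
  have h5 : ((B : ℝ) + 1) ^ k ≤ B ^ k * ((2 * d + 1) ^ m * k ^ m) := by exact_mod_cast h4
  rw [div_pow, div_div_eq_mul_div, div_lt_div_iff₀ (by positivity) (by positivity)] at hk
  nlinarith

namespace Code
variable (T : Code m s)

open Classical in
/-- the centres of norm at most `R` -/
noncomputable def F (R : ℕ) : Finset (V m) := (ball m R).filter fun c => c ∈ T.C

theorem mem_F {R : ℕ} {c : V m} : c ∈ T.F R ↔ nrm c ≤ R ∧ c ∈ T.C := by
  simp [F, mem_ball]

/-- mass transport: every pair (centre, point at distance `s+1`) is charged at most once -/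
theorem transport (g : V m → V m → ℕ) (R : ℕ) :
    ∑ c ∈ T.F R, ∑ x ∈ sph m s, ∑ u ∈ (T.sh c).up (2 * s + 1) x, g (u + c) (x - u) ≤
      ∑ c ∈ T.F (R + (2 * s + 1)), ∑ y ∈ sph m (s + 1), g c y := by
  classical
  rw [← sum_product' (T.F (R + (2 * s + 1))) (sph m (s + 1)) g,
    sum_congr rfl fun c _ => sum_sigma' (sph m s) (fun x => (T.sh c).up (2 * s + 1) x)
      (fun x u => g (u + c) (x - u)), sum_sigma']
  set S := (T.F R).sigma fun c => (sph m s).sigma fun x => (T.sh c).up (2 * s + 1) x with hS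
  let φ : (Σ _ : V m, Σ _ : V m, V m) → V m × V m := fun t => (t.2.2 + t.1, t.2.1 - t.2.2)
  have hinj : Set.InjOn φ S := by
    rintro ⟨c, x, u⟩ h ⟨c', x', u'⟩ h' e
    simp only [hS, mem_coe, mem_sigma, mem_F, mem_sph] at h h'
    simp only [φ, Prod.mk.injEq] at e
    have e0 : x + c = x' + c' := by
      have : x + c = (u + c) + (x - u) := by abel
      rw [this, e.1, e.2]; abel
    have e1 : c = c' := T.uniq (x + c) c c' h.1.2 h'.1.2
      (by rw [show c - (x + c) = -x by abel, nrm_neg]; omega)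
      (by rw [e0, show c' - (x' + c') = -x' by abel, nrm_neg]; omega)
    subst e1
    have e2 : x = x' := add_right_cancel e0
    have e3 : u = u' := add_right_cancel e.1
    subst e2 e3
    rfl
  have himg : S.image φ ⊆ T.F (R + (2 * s + 1)) ×ˢ sph m (s + 1) := by
    intro p hp
    obtain ⟨⟨c, x, u⟩, h, rfl⟩ := mem_image.1 hp
    simp only [hS, mem_sigma, mem_F, mem_sph, mem_up] at h
    have h1 := h.2.2.2.nrm_eq
    have h2 := nrm_add_le u c
    simp only [φ, mem_product, mem_F, mem_sph]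
    exact ⟨⟨by omega, (T.mem_sh h.1.2 u).1 h.2.2.1.2⟩, by rw [nrm_sub_comm]; omega⟩
  exact (sum_image (f := fun p : V m × V m => g p.1 p.2) hinj).symm.trans_le
    (sum_le_sum_of_subset himg)

/-- a strict local inequality cannot hold at every centre -/
theorem no_drift (a : V m → ℕ) (g : V m → V m → ℕ) (B : ℕ)
    (ha : ∀ c ∈ T.C, a c = ∑ x ∈ sph m s, ∑ u ∈ (T.sh c).up (2 * s + 1) x, g (u + c) (x - u))
    (hB : ∀ c ∈ T.C, ∑ y ∈ sph m (s + 1), g c y ≤ B)
    (h : ∀ c ∈ T.C, ∑ y ∈ sph m (s + 1), g c y < a c) : False := by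
  classical
  refine growth (m := m) (fun R => (T.F R).card) B (2 * s + 1) ?_ (fun R => ?_) (fun R => ?_)
  · exact card_pos.2 ⟨0, T.mem_F.2 ⟨by simp, T.zero⟩⟩
  · have hsub : T.F R ⊆ T.F (R + (2 * s + 1)) := fun c hc => by
      rw [mem_F] at hc ⊢
      exact ⟨by omega, hc.2⟩
    have h1 := T.transport g R
    rw [← sum_congr rfl fun c hc => ha c (T.mem_F.1 hc).2, ← sum_sdiff hsub] at h1
    have h2 : ∑ c ∈ T.F R, (∑ y ∈ sph m (s + 1), g c y + 1) ≤ ∑ c ∈ T.F R, a c :=
      sum_le_sum fun c hc => h c (T.mem_F.1 hc).2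
    rw [sum_add_distrib, sum_const, smul_eq_mul, mul_one] at h2
    have h3 := sum_le_card_nsmul (T.F (R + (2 * s + 1)) \ T.F R) _ B
      (fun c hc => hB c (T.mem_F.1 (mem_sdiff.1 hc).1).2)
    have h4 := card_sdiff_add_card_eq_card hsub
    rw [smul_eq_mul] at h3
    rw [← h4]
    nlinarith
  · exact (card_filter_le _ _).trans (card_ball_le R)

/-- the centre `c` seen from the neighbouring centre `u + c` -/
theorem shift_back {M : Type*} [AddCommMonoid M] {c x u : V m} (hc : c ∈ T.C) (hx : nrm x = s)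
    (hu : u ∈ (T.sh c).up (2 * s + 1) x) (g : V m → M) :
    ∑ u' ∈ (T.sh c).up (2 * s + 1) x, g (u' - x) =
      g (u - x) + ∑ w ∈ (T.sh (u + c)).up (2 * s + 2) (x - u), g (w - (x - u)) := by
  rw [mem_up] at hu
  have h1 := hu.2.nrm_eq
  have huc := (T.mem_sh hc u).1 hu.1.2
  have hm : -u ∈ (T.sh (u + c)).up (2 * s + 1) (x - u) := by
    refine (T.sh (u + c)).mem_up.2 ⟨⟨by simp [hu.1.1], by rw [T.mem_sh huc]; simpa using hc⟩, ?_⟩
    have := hu.2.compl.neg
    rwa [neg_sub] at this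
  have := (T.sh (u + c)).sum_up_shift (y := x - u) (by rw [nrm_sub_comm]; omega) hm (T.sh c)
    (fun w => by rw [T.mem_sh hc, T.mem_sh huc, show w + -u + (u + c) = w + c by abel]) g
  rwa [show x - u - -u = x by abel, neg_sub] at this

include T in
theorem T1_big {c : ℕ} (hs : 7 ≤ s) (hm : s * (s + 1) ≤ 2 * m) (hc1 : 1 ≤ c)
    (hc2 : c + 1 ≤ s) (hd : s + 1 ∣ 2 * m + 1 + c) : False := by
  refine T.no_drift (fun z => (T.sh z).Aw) (fun z y => (T.sh z).gam y)
    (∑ y ∈ sph m (s + 1), exc y * (exc y + ∑ w ∈ sph m (2 * s + 2), exc (w - y)))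
    (fun z hz => ?_) (fun z _ => ?_) (fun z _ => ?_)
  · refine sum_congr rfl fun x hx => sum_congr rfl fun u hu => ?_
    rw [T.shift_back hz (mem_sph.1 hx) hu exc, gam, ← exc_neg (x - u), neg_sub]
  · refine sum_le_sum fun y _ => Nat.mul_le_mul_left _ (Nat.add_le_add_left ?_ _)
    exact sum_le_sum_of_subset fun w hw => mem_sph.2 ((T.sh z).mem_up.1 hw).1.1
  · by_contra h
    exact (T.sh z).T1_loc hs hm hc1 hc2 hd (not_lt.1 h)

include T in
/-- no tiling for radius at least eleven -/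
theorem eleven_le (hs : 11 ≤ s) (hm3 : 3 ≤ m) : False := by
  by_cases h : 2 * m + 2 ≤ s * (s + 1)
  · exact T.R_big (by omega) hm3 h
  have hm : s * (s + 1) ≤ 2 * m := by
    obtain ⟨k, hk⟩ := Nat.even_mul_succ_self s
    omega
  obtain ⟨c, hc, hd⟩ : ∃ c, c ≤ s ∧ s + 1 ∣ 2 * m + 1 + c := by
    refine ⟨s - 2 * m % (s + 1), by omega, 2 * m / (s + 1) + 1, ?_⟩
    have a := Nat.div_add_mod (2 * m) (s + 1)
    have b := Nat.mod_lt (2 * m) (show 0 < s + 1 by omega)
    rw [mul_add]; omega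
  rcases Nat.eq_zero_or_pos c with rfl | h1
  · rw [add_zero] at hd
    have h3 : s * (s + 2) ≤ 2 * m := by
      obtain ⟨k, hk⟩ := hd
      have : s + 1 ≤ k := by
        by_contra h
        have := Nat.mul_le_mul_left (s + 1) (show k ≤ s by omega)
        rw [mul_comm (s + 1) s] at this
        omega
      have := Nat.mul_le_mul_left (s + 1) this
      nlinarith
    by_cases h12 : 12 ≤ s
    · exact T.T3_big h12 h3 hd
    have : s = 11 := by omega
    subst this
    omega
  rcases hc.eq_or_lt with rfl | h3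
  · have hd' : c + 1 ∣ 2 * m := by
      rw [add_assoc, add_comm 1] at hd
      exact (Nat.dvd_add_left (dvd_refl _)).1 hd
    exact T.T2_big (by omega) hm hd'
  · exact T.T1_big (by omega) hm h1 h3 hd

end Code

end Pool.Agent.Lib.MP_a6e91d_co
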