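import Pool.Agent.Lib.MP_a6e91d_co.NL.Basic
import Pool.Agent.Lib.MP_a6e91d_co.Psi

set_option autoImplicit false

namespace Pool.Agent.Lib.MP_a6e91d_co
open Finset

variable {m : ℕ}

namespace Code
variable {s : ℕ} (T : Code m s)

noncomputable def X (n k k' a : ℕ) : ℕ := ∑ w ∈ T.L n, bx w k k' a

theorem X_comm (n k k' a : ℕ) : T.X n k k' a = T.X n k' k a :=
  sum_congr rfl fun w _ => bx_comm w k k' a

theorem X_symm {n k k' a b : ℕ} (h : a + b + (k + k') = n) : T.X n k k' a = T.X n k k' b :=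
  sum_congr rfl fun w hw => bx_symm w (h.trans (T.mem_L.1 hw).1.symm)

theorem X_flat {n k k' a r : ℕ} (h : a + r + (k + k') = n) (h2 : a + 1 ≤ r) :
    (a + 1) * T.X n k k' (a + 1) ≤ r * T.X n k k' a := by
  unfold X
  rw [mul_sum, mul_sum]
  exact sum_le_sum fun w hw => bx_flat w (h.trans (T.mem_L.1 hw).1.symm) h2

theorem X_eq (n k k' a : ℕ) : T.X n k k' a = ∑ i, ∑ j,
    ∑ y ∈ (sph m (k + k' + a)).filter (fun y => ∀ l, mk2 i j k k' l ≤ (y l).natAbs),
      (T.up n y).card := by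
  unfold X
  simp only [bx_eq_known]
  rw [sum_comm]
  refine sum_congr rfl fun i _ => ?_
  rw [sum_comm]
  refine sum_congr rfl fun j _ => ?_
  simp only [up, card_filter, sum_filter]
  rw [sum_comm]
  refine sum_congr rfl fun y _ => ?_
  split_ifs with h <;> simp [h]

theorem X_one {k k' b : ℕ} (hk : 1 ≤ k) (hk' : 1 ≤ k') (h : k + k' + b = s + 1) :
    T.X (2 * s + 1) k k' b = Gb m b := by
  rw [X_eq, ← Gm_eq hk hk']
  refine sum_congr rfl fun i _ => sum_congr rfl fun j _ => ?_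
  rw [dom, card_eq_sum_ones]
  exact sum_congr rfl fun y hy => T.cover1 ((mem_sph.1 (mem_filter.1 hy).1).trans h)

theorem X_two {k k' b : ℕ} (hk : 1 ≤ k) (hk' : 1 ≤ k') (h : k + k' + b = s + 2) :
    T.X (2 * s + 1) k k' b + T.X (2 * s + 2) k k' b = Gb m b := by
  rw [X_eq, X_eq, ← Gm_eq hk hk', ← sum_add_distrib]
  refine sum_congr rfl fun i _ => ?_
  rw [← sum_add_distrib]
  refine sum_congr rfl fun j _ => ?_
  rw [dom, card_eq_sum_ones, ← sum_add_distrib]
  exact sum_congr rfl fun y hy => T.cover2 ((mem_sph.1 (mem_filter.1 hy).1).trans h)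

end Code

namespace Code
variable {s : ℕ} (T : Code m s)

noncomputable def Pe (n : ℕ) (L : List ℕ) : ℤ := ∑ u ∈ T.L n, pe (ab u) L univ
noncomputable def Pt (n t : ℕ) (L : List ℕ) : ℤ := ∑ u ∈ T.L n, pt (ab u) t L univ

theorem Pe_one {L : List ℕ} (hL : ∀ k ∈ L, 1 ≤ k) (h : L.sum = s + 1) :
    T.Pe (2 * s + 1) L = Fm m L.length := by
  rw [Pe, sum_pe_eq _ L hL, ← sum_sph_pe L hL]
  refine sum_congr rfl fun y hy => ?_
  have := T.cover1 ((mem_sph.1 hy).trans h)
  unfold up at this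
  rw [this]; simp

theorem Pe_two {L : List ℕ} (hL : ∀ k ∈ L, 1 ≤ k) (h : L.sum = s + 2) :
    T.Pe (2 * s + 1) L + T.Pe (2 * s + 2) L = Fm m L.length := by
  rw [Pe, Pe, sum_pe_eq _ L hL, sum_pe_eq _ L hL, ← sum_sph_pe L hL, ← sum_add_distrib]
  refine sum_congr rfl fun y hy => ?_
  have := T.cover2 ((mem_sph.1 hy).trans h)
  unfold up at this
  rw [← add_mul, ← Nat.cast_add, this]; simp

theorem Pe_Kt {L : List ℕ} (hL : ∀ k ∈ L, 1 ≤ k) (h : L.sum = s + 1) :
    T.Pe (2 * s + 2) L = ∑ y ∈ sph m (s + 1), (T.Kt y : ℤ) * pe (ab y) L univ := by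
  rw [Pe, sum_pe_eq _ L hL, h]; rfl

/-- lower bound in the class `s+1 ∣ 2m` -/
theorem T2_lower (hd : s + 1 ∣ 2 * m) :
    (2 * m - s - 1) * Fm m (s + 1) ≤ (s + 1) * T.Pe (2 * s + 2) (List.replicate (s + 1) 1) := by
  have hL : ∀ k ∈ List.replicate (s + 1) 1, 1 ≤ k := fun k hk => (List.eq_of_mem_replicate hk).ge
  have h1 := sum_sph_pe (m := m) _ hL
  simp only [List.sum_replicate, smul_eq_mul, mul_one, List.length_replicate] at h1
  rw [T.Pe_Kt hL (by simp), ← h1, mul_sum, mul_sum]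
  refine sum_le_sum fun y hy => ?_
  rw [← mul_assoc]
  refine mul_le_mul_of_nonneg_right ?_ (pe_nonneg _ _ _)
  have h2 := T.Kt_ge (mem_sph.1 hy)
  obtain ⟨k, hk⟩ := hd
  have h3 : k ≤ 1 + T.Kt y := by
    by_contra h
    have : (s + 1) * (1 + T.Kt y + 1) ≤ (s + 1) * k := Nat.mul_le_mul_left _ (by omega)
    rw [mul_add (s + 1) _ 1] at this
    omega
  have := Nat.mul_le_mul_left (s + 1) h3
  zify at this hk
  linarith

/-- lower bound in the class `s+1 ∣ 2m+1` -/
theorem T3_lower {n : ℕ} (hn : n + 1 = s) (hd : s + 1 ∣ 2 * m + 1) :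
    (2 * m - s) * Fm m s ≤ (s + 1) * T.Pe (2 * s + 2) (2 :: List.replicate n 1) := by
  have hL : ∀ k ∈ 2 :: List.replicate n 1, 1 ≤ k := fun k hk => by
    rcases List.mem_cons.1 hk with h | h
    · omega
    · exact (List.eq_of_mem_replicate h).ge
  have hs : (2 :: List.replicate n 1).sum = s + 1 := by simp; omega
  have h1 := sum_sph_pe (m := m) _ hL
  rw [hs, List.length_cons, List.length_replicate, hn] at h1
  rw [T.Pe_Kt hL hs, ← h1, mul_sum, mul_sum]
  refine sum_le_sum fun y hy => ?_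
  by_cases he : exc y = 0
  · have : pe (ab y) (2 :: List.replicate n 1) univ = 0 := by
      rw [pe_cons]
      refine sum_eq_zero fun i _ => ?_
      have := sum_eq_zero_iff.1 he i (mem_univ i)
      rw [exq, if_neg (by unfold ab; omega), zero_mul]
    simp [this]
  rw [← mul_assoc]
  refine mul_le_mul_of_nonneg_right ?_ (pe_nonneg _ _ _)
  have h2 := T.Kt_ge (mem_sph.1 hy)
  obtain ⟨k, hk⟩ := hd
  have h3 : k ≤ 1 + T.Kt y := by
    by_contra h
    have : (s + 1) * (1 + T.Kt y + 1) ≤ (s + 1) * k := Nat.mul_le_mul_left _ (by omega)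
    rw [mul_add (s + 1) _ 1] at this
    omega
  have := Nat.mul_le_mul_left (s + 1) h3
  zify at this hk
  linarith

end Code

end Pool.Agent.Lib.MP_a6e91d_co
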