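import Pool.Agent.Lib.MP_a6e91d_co.NL.PSpl

set_option autoImplicit false

namespace Pool.Agent.Lib.MP_a6e91d_co
open Finset

variable {m : ℕ}

theorem exc_lt {x : V m} {n : ℕ} (hx : nrm x = n + 1) : exc x ≤ n := by
  have h1 := sup_add_exc x
  by_contra h
  have h2 : sup x = 0 := by omega
  rw [sup, card_eq_zero, filter_eq_empty_iff] at h2
  have h3 : x = 0 := funext fun i => by simpa using h2 (mem_univ i)
  rw [h3, nrm_zero] at hx
  omega

theorem conj_zero (y : V m) : conj (ab y) 0 = sup y := by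
  unfold conj sup ab
  congr 1
  ext i
  simp only [mem_filter, mem_univ, true_and]
  omega

theorem sum_exc_fib {n : ℕ} (f : ℕ → ℤ) : ∑ x ∈ sph m (n + 1), f (exc x) =
    ∑ a ∈ range (n + 1), f a * N m (n + 1) (n + 1 - a) := by
  rw [← sum_fiberwise_of_maps_to (t := range (n + 1)) (g := fun x => exc x)
    (fun x hx => mem_range.2 (Nat.lt_succ_of_le (exc_lt (mem_sph.1 hx))))]
  refine sum_congr rfl fun a ha => ?_
  rw [sum_congr rfl fun x hx => congrArg f (mem_filter.1 hx).2, sum_const, nsmul_eq_mul, mul_comm, N]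
  congr 3
  ext x
  simp only [mem_filter, mem_sph]
  have := sup_add_exc x
  have := mem_range.1 ha
  constructor <;> rintro ⟨h1, h2⟩ <;> exact ⟨h1, by omega⟩

namespace Code
variable {s : ℕ} (T : Code m s)

theorem K_le {x : V m} (hx : nrm x = s) : T.K x ≤ 2 * m := by
  have h1 := T.sum_sup hx
  have h2 : T.K x ≤ ∑ u ∈ T.up (2 * s + 1) x, sup (u - x) := by
    rw [K, card_eq_sum_ones]
    refine sum_le_sum fun u hu => ?_
    have a := T.nrm_sub_of_up hx hu
    have b := exc_lt a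
    have c := sup_add_exc (u - x)
    omega
  omega

/-- integer form of the transport principle -/
theorem no_driftZ (g : V m → V m → ℤ) (M : ℕ) (hM : ∀ c y, nrm y = s + 1 → |g c y| ≤ M)
    (h : ∀ c ∈ T.C, ∑ y ∈ sph m (s + 1), g c y <
      ∑ x ∈ sph m s, ∑ u ∈ (T.sh c).up (2 * s + 1) x, g (u + c) (x - u)) : False := by
  refine T.no_drift
    (fun c => ∑ x ∈ sph m s, ∑ u ∈ (T.sh c).up (2 * s + 1) x, (g (u + c) (x - u) + M).toNat)
    (fun c y => (g c y + M).toNat) (∑ _y ∈ sph m (s + 1), 2 * M) (fun _ _ => rfl)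
    (fun c _ => sum_le_sum fun y hy => ?_) (fun c hc => ?_)
  · have := abs_le.1 (hM c y (mem_sph.1 hy)); omega
  · have e1 : ∑ y ∈ sph m (s + 1), (((g c y + M).toNat : ℕ) : ℤ) =
        ∑ y ∈ sph m (s + 1), (g c y + M) := sum_congr rfl fun y hy => by
      have := abs_le.1 (hM c y (mem_sph.1 hy)); omega
    have e2 : ∑ x ∈ sph m s, ∑ u ∈ (T.sh c).up (2 * s + 1) x,
        (((g (u + c) (x - u) + M).toNat : ℕ) : ℤ) =
        ∑ x ∈ sph m s, (∑ u ∈ (T.sh c).up (2 * s + 1) x, g (u + c) (x - u) +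
          ((T.sh c).K x : ℤ) * M) := sum_congr rfl fun x hx => by
      rw [K, ← nsmul_eq_mul, ← sum_const, ← sum_add_distrib]
      refine sum_congr rfl fun u hu => ?_
      have a := (T.sh c).nrm_sub_of_up (mem_sph.1 hx) hu
      have := abs_le.1 (hM (u + c) (x - u) (by rw [nrm_sub_comm]; exact a)); omega
    have e3 := (T.sh c).sum_K
    have e4 := h c hc
    zify at e3 ⊢
    rw [e1, e2, sum_add_distrib, sum_add_distrib, ← sum_mul, e3, sum_const, nsmul_eq_mul]
    linarith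

theorem lp_mainB (tT tC tD : Trie) (B : ℕ → ℕ → ℤ) (okT : tT.ok (s + 1) = true)
    (okC : tC.ok (s + 2) = true) (okD : tD.ok (s + 1) = true)
    (hW : allP (fun A => decide (tT.eval A 0 ≤ tC.eval A 0)) (2 * s + 2) (2 * s + 2) (2 * s + 2) []
      = true)
    (hU : allP (fun A => decide (spl B (unconj (2 * s + 1) A) s 0 0 ≤ tC.eval A 0 + tD.eval A 0))
      (2 * s + 1) (2 * s + 1) (2 * s + 1) [] = true) :
    (tT.paths.map fun p => p.2 * T.Pe (2 * s + 2) p.1).sum +
      ∑ x ∈ sph m s, ∑ u ∈ T.up (2 * s + 1) x, B (exc x) (exc (u - x)) ≤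
      ev 0 (rhsP m 0 tC tD 0 0) := by
  have h : (m : ℤ) = m + 0 * 0 := by simp
  have h1 : ∑ w ∈ T.L (2 * s + 2), pl tT.paths (ab w) ≤ ∑ w ∈ T.L (2 * s + 2),
      pl tC.paths (ab w) := by
    refine sum_le_sum fun w hw => ?_
    obtain ⟨l, hl, e1, -⟩ := exists_list _ hW (T.mem_L.1 hw).1 (.inl le_rfl)
    simpa only [decide_eq_true_eq,
      eval_eq_pl _ (Trie.ok_okL okT) e1, eval_eq_pl _ (Trie.ok_okL okC) e1] using hl
  have h3 : ∑ u ∈ T.L (2 * s + 1), ∑ x ∈ (sph m s).filter (fun x => Le x u),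
      B (exc x) (exc (u - x)) ≤ ∑ u ∈ T.L (2 * s + 1),
      (pl tC.paths (ab u) + pl tD.paths (ab u)) := by
    refine sum_le_sum fun w hw => ?_
    obtain ⟨l, hl, e1, -⟩ := exists_list _ hU (T.mem_L.1 hw).1 (.inl le_rfl)
    simpa only [decide_eq_true_eq, spl_unconj B (T.mem_L.1 hw).1 e1,
      eval_eq_pl _ (Trie.ok_okL okD) e1, eval_eq_pl _ (Trie.ok_okL okC) e1] using hl
  rw [← T.sum_up_comm s (2 * s + 1) (fun x u => B (exc x) (exc (u - x)))] at h3
  simp only [sum_add_distrib, T.sum_pl_Pe] at h1 h3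
  have a1 := Trie.ev_poly h tC 0
  have a2 := Trie.ev_poly h tD 0
  have f0 : Fm m 0 = 1 := by simp [Fm]
  simp only [f0, one_mul, zero_add] at a1 a2
  have b1 : (tC.paths.map fun p => p.2 * Fm m p.1.length).sum =
      (tC.paths.map fun p => p.2 * T.Pe (2 * s + 1) p.1).sum +
      (tC.paths.map fun p => p.2 * T.Pe (2 * s + 2) p.1).sum := by
    rw [← List.sum_map_add]
    congr 1
    refine List.map_congr_left fun p hp => ?_
    rw [← T.Pe_two (Trie.ok_mem okC hp).1 (Trie.ok_mem okC hp).2, mul_add]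
  have b2 : (tD.paths.map fun p => p.2 * Fm m p.1.length).sum =
      (tD.paths.map fun p => p.2 * T.Pe (2 * s + 1) p.1).sum := by
    congr 1
    refine List.map_congr_left fun p hp => ?_
    rw [← T.Pe_one (Trie.ok_mem okD hp).1 (Trie.ok_mem okD hp).2]
  simp only [rhsP, ev_padd, ev_psc, ev_FmP h, a1, a2, b1, b2]
  linarith

end Code

/-- a certificate for one pair (radius, dimension) -/
structure PCert where
  s : ℕ
  m : ℕ
  tT : Trie
  tC : Trie
  tD : Trie
  A : List ℤ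
  t : List ℤ
  B : List (List ℤ)
  eta : List (List ℤ)

namespace PCert
variable (c : PCert)

def Bf (a e : ℕ) : ℤ := (c.B.getD a []).getD e 0
def ok : Bool := c.tT.ok (c.s + 1) && c.tC.ok (c.s + 2) && c.tD.ok (c.s + 1) &&
  Nat.ble 1 c.s && Nat.ble 1 c.m
def W : Bool := allP (fun A => decide (c.tT.eval A 0 ≤ c.tC.eval A 0))
  (2 * c.s + 2) (2 * c.s + 2) (2 * c.s + 2) []
def U : Bool := allP (fun A => decide (spl c.Bf (unconj (2 * c.s + 1) A) c.s 0 0 ≤
  c.tC.eval A 0 + c.tD.eval A 0)) (2 * c.s + 1) (2 * c.s + 1) (2 * c.s + 1) []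
def Y : Bool := allP (fun A => decide (c.tT.eval A 0 = c.t.getD (c.s + 1 - A.getD 0 0) 0))
  (c.s + 1) (c.s + 1) (c.s + 1) []
def loc : Bool := (List.range c.s).all fun a => (List.range (2 * c.m + 1)).all fun k =>
  (List.range (c.s + 1)).all fun e =>
    decide (k = 0) || decide ((c.s + 1) * k + c.s < 2 * c.m + a + e) ||
    decide (0 ≤ (k : ℤ) * c.Bf a e + k * (k - 1) * c.t.getD e 0 + c.A.getD a 0 +
      (c.eta.getD a []).getD k 0 * (k * e - ((c.s + 1) * k + c.s - 2 * c.m - a)))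
def fin : Bool := decide (((List.range c.s).map fun a => c.A.getD a 0 *
  ((2 ^ (c.s - a) * (c.m.descFactorial (c.s - a) / (c.s - a).factorial) * cmp c.s (c.s - a) : ℕ) :
    ℤ)).sum + ev 0 (rhsP c.m 0 c.tC c.tD 0 0) < 0)

theorem loc_ineq (T : Code c.m c.s) (hs : 1 ≤ c.s) (hm : 1 ≤ c.m) (hl : c.loc = true) {x : V c.m}
    (hx : nrm x = c.s) : 0 ≤ c.A.getD (exc x) 0 +
      ∑ u ∈ T.up (2 * c.s + 1) x, c.Bf (exc x) (exc (u - x)) +
      ∑ u ∈ T.up (2 * c.s + 1) x, c.t.getD (exc (u - x)) 0 * ((T.K x : ℤ) - 1) := by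
  have k1 := T.one_le_K hm hx
  have k2 := T.K_le hx
  have k3 := T.K_eq hx
  have k4 : exc x ≤ c.s - 1 := exc_lt (by omega)
  simp only [loc, List.all_eq_true, List.mem_range, Bool.or_eq_true, decide_eq_true_eq] at hl
  have h1 : ∑ u ∈ T.up (2 * c.s + 1) x, (0 : ℤ) ≤ ∑ u ∈ T.up (2 * c.s + 1) x,
      ((T.K x : ℤ) * c.Bf (exc x) (exc (u - x)) +
        T.K x * (c.t.getD (exc (u - x)) 0 * (T.K x - 1)) + c.A.getD (exc x) 0 +
      (c.eta.getD (exc x) []).getD (T.K x) 0 * (T.K x * exc (u - x) -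
        ((c.s + 1) * T.K x + c.s - 2 * c.m - exc x))) := by
    refine sum_le_sum fun u hu => ?_
    have a := exc_lt (T.nrm_sub_of_up hx hu)
    have b := single_le_sum (f := fun u => exc (u - x)) (fun _ _ => Nat.zero_le _) hu
    rcases hl (exc x) (by omega) (T.K x) (by omega) (exc (u - x)) (by omega) with (h | h) | h
    · omega
    · omega
    · linarith
  simp only [sum_add_distrib, ← mul_sum, sum_sub_distrib, sum_const, nsmul_eq_mul, mul_zero] at h1
  zify at k3 k1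
  have e : ((T.up (2 * c.s + 1) x).card : ℤ) = T.K x := rfl
  rw [e] at h1
  have k5 : ∑ u ∈ T.up (2 * c.s + 1) x, (exc (u - x) : ℤ) =
      (c.s + 1) * T.K x + c.s - 2 * c.m - exc x := by linarith
  rw [k5] at h1
  refine nonneg_of_mul_nonneg_right (a := (T.K x : ℤ)) (h1.trans_eq ?_) (by linarith)
  ring

theorem kill (T : Code c.m c.s) (hok : c.ok = true) (hW : c.W = true) (hU : c.U = true)
    (hY : c.Y = true) (hl : c.loc = true) (hf : c.fin = true) : False := by
  simp only [ok, Bool.and_eq_true, Nat.ble_eq] at hok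
  obtain ⟨⟨⟨⟨okT, okC⟩, okD⟩, hs⟩, hm⟩ := hok
  refine T.no_driftZ (fun z y => c.t.getD (exc y) 0 * (T.sh z).Kt y)
    ((∑ e ∈ range (c.s + 1), (c.t.getD e 0).natAbs) * (sph c.m (2 * c.s + 2)).card)
    (fun z y hy => ?_) (fun z hz => ?_)
  · have a : (T.sh z).Kt y ≤ (sph c.m (2 * c.s + 2)).card :=
      card_le_card fun w hw => mem_sph.2 ((T.sh z).mem_up.1 hw).1.1
    have b := single_le_sum (f := fun e => (c.t.getD e 0).natAbs) (fun _ _ => Nat.zero_le _)
      (mem_range.2 (Nat.lt_succ_of_le (exc_lt hy)))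
    have d := Nat.mul_le_mul b a
    rw [abs_mul, Nat.abs_cast, ← Int.natCast_natAbs]
    exact_mod_cast d
  · have a := (T.sh z).lp_mainB _ _ _ _ okT okC okD hW hU
    have d : (c.tT.paths.map fun p => p.2 * (T.sh z).Pe (2 * c.s + 2) p.1).sum =
        ∑ y ∈ sph c.m (c.s + 1), c.t.getD (exc y) 0 * (T.sh z).Kt y := by
      rw [List.map_congr_left fun p hp => congrArg (p.2 * ·)
        ((T.sh z).Pe_Kt (Trie.ok_mem okT hp).1 (Trie.ok_mem okT hp).2), ← sum_pl]
      refine sum_congr rfl fun y hy => ?_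
      obtain ⟨l, hl, e1, _⟩ := exists_list _ hY (mem_sph.1 hy) (.inl le_rfl)
      simp only [decide_eq_true_eq, eval_eq_pl _ (Trie.ok_okL okT) e1, e1, conj_zero] at hl
      have := sup_add_exc y
      rw [mem_sph.1 hy] at this
      rw [hl, mul_comm, show c.s + 1 - sup y = exc y by omega]
    have e : ∑ x ∈ sph c.m c.s, ∑ u ∈ (T.sh z).up (2 * c.s + 1) x,
        c.t.getD (exc (x - u)) 0 * ((T.sh (u + z)).Kt (x - u) : ℤ) =
        ∑ x ∈ sph c.m c.s, ∑ u ∈ (T.sh z).up (2 * c.s + 1) x,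
        c.t.getD (exc (u - x)) 0 * (((T.sh z).K x : ℤ) - 1) := by
      refine sum_congr rfl fun x hx => sum_congr rfl fun u hu => ?_
      have h1 := T.shift_back hz (mem_sph.1 hx) hu (fun _ => (1 : ℕ))
      have h2 : (T.sh z).K x = 1 + (T.sh (u + z)).Kt (x - u) := by
        simpa [Code.K, Code.Kt] using h1
      rw [h2, ← exc_neg (x - u), neg_sub]
      push_cast
      ring
    have f := sum_nonneg fun x (hx : x ∈ sph c.m c.s) =>
      c.loc_ineq (T.sh z) hs hm hl (mem_sph.1 hx)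
    have g := sum_exc_fib (m := c.m) (n := c.s - 1) (fun a => c.A.getD a 0)
    rw [show c.s - 1 + 1 = c.s by omega] at g
    simp only [fin, decide_eq_true_eq, ← Nat.choose_eq_descFactorial_div_factorial, ← N_eq] at hf
    rw [← List.sum_toFinset _ List.nodup_range, List.toFinset_range, ← g] at hf
    rw [sum_add_distrib, sum_add_distrib] at f
    rw [e, ← d]
    linarith

end PCert

end Pool.Agent.Lib.MP_a6e91d_co
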