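import Pool.Agent.Lib.MP_a6e91d_co.NL.LP

set_option autoImplicit false

namespace Pool.Agent.Lib.MP_a6e91d_co
open Finset

/-- sum of `B` over all ways of splitting the parts of a list -/
def spl (B : ℕ → ℕ → ℤ) : List ℕ → ℕ → ℕ → ℕ → ℤ
  | [], r, p, q => bif Nat.beq r 0 then B p q else 0
  | j :: l, r, p, q => ((List.range (j + 1)).map fun y =>
      bif Nat.ble y r then forceN (r - y) fun r' => forceN (p + (y - 1)) fun p' =>
        forceN (q + (j - y - 1)) fun q' => spl B l r' p' q' else 0).sum

theorem spl_cons (B : ℕ → ℕ → ℤ) (j : ℕ) (l : List ℕ) (r p q : ℕ) :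
    spl B (j :: l) r p q = ∑ y ∈ range (j + 1),
      if y ≤ r then spl B l (r - y) (p + (y - 1)) (q + (j - y - 1)) else 0 := by
  rw [spl, ← List.sum_toFinset _ List.nodup_range, List.toFinset_range]
  refine sum_congr rfl fun y _ => ?_
  by_cases h : y ≤ r
  · simp [h, Nat.ble_eq_true_of_le h]
  · have : Nat.ble y r = false := by
      rw [← Bool.not_eq_true, Nat.ble_eq]; exact h
    simp [h, this]

theorem spl_perm (B : ℕ → ℕ → ℤ) {l l' : List ℕ} (h : l.Perm l') :
    ∀ r p q, spl B l r p q = spl B l' r p q := by
  induction h with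
  | nil => intros; rfl
  | cons j _ ih => intro r p q; simp only [spl_cons, ih]
  | swap i j l =>
    intro r p q
    simp only [spl_cons]
    have e : ∀ (a b : ℕ), (∑ y ∈ range (a + 1), if y ≤ r then ∑ z ∈ range (b + 1),
        (if z ≤ r - y then spl B l (r - y - z) (p + (y - 1) + (z - 1))
          (q + (a - y - 1) + (b - z - 1)) else 0) else 0) =
        ∑ y ∈ range (a + 1), ∑ z ∈ range (b + 1), if y + z ≤ r then spl B l (r - (y + z))
          (p + ((y - 1) + (z - 1))) (q + ((a - y - 1) + (b - z - 1))) else 0 := by
      intro a b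
      refine sum_congr rfl fun y _ => ?_
      split_ifs with h
      · refine sum_congr rfl fun z _ => ?_
        rw [Nat.sub_sub, add_assoc, add_assoc]
        exact if_congr (by omega) rfl rfl
      · exact (sum_eq_zero fun z _ => if_neg (by omega)).symm
    rw [e, e, sum_comm]
    refine sum_congr rfl fun y _ => sum_congr rfl fun z _ => ?_
    rw [add_comm z y, add_comm (z - 1), add_comm (j - z - 1)]
  | trans _ _ ih1 ih2 => intro r p q; rw [ih1, ih2]

theorem spl_filter (B : ℕ → ℕ → ℤ) (l : List ℕ) :
    ∀ r p q, spl B (l.filter fun j => decide (j ≠ 0)) r p q = spl B l r p q := by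
  induction l with
  | nil => intros; rfl
  | cons j l ih =>
    intro r p q
    rcases j with _ | j
    · rw [List.filter_cons_of_neg (by simp), spl_cons, ih]; simp
    · rw [List.filter_cons_of_pos (by simp)]
      simp only [spl_cons, ih]

theorem spl_ofFn (B : ℕ → ℕ → ℤ) {m : ℕ} (a : Fin m → ℕ) (r p q : ℕ) :
    spl B (List.ofFn a) r p q = ∑ y ∈ Fintype.piFinset fun i => range (a i + 1),
      if ∑ i, y i = r then B (p + ∑ i, (y i - 1)) (q + ∑ i, (a i - y i - 1)) else 0 := by
  induction m generalizing r p q with
  | zero =>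
    rcases r with _ | r
    · simp [spl]
    · simp [spl, Nat.beq]
  | succ m ih =>
    rw [List.ofFn_succ, spl_cons]
    simp only [ih]
    have e : ∀ y ∈ range (a 0 + 1), (if y ≤ r then
        ∑ z ∈ Fintype.piFinset fun i : Fin m => range (a i.succ + 1),
          (if ∑ i, z i = r - y then B (p + (y - 1) + ∑ i, (z i - 1))
            (q + (a 0 - y - 1) + ∑ i, (a i.succ - z i - 1)) else 0) else 0) =
        ∑ z ∈ Fintype.piFinset fun i : Fin m => range (a i.succ + 1),
          if y + ∑ i, z i = r then B (p + ((y - 1) + ∑ i, (z i - 1)))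
            (q + ((a 0 - y - 1) + ∑ i, (a i.succ - z i - 1))) else 0 := by
      intro y _
      split_ifs with h
      · refine sum_congr rfl fun z _ => ?_
        rw [add_assoc, add_assoc]
        exact if_congr (by omega) rfl rfl
      · exact (sum_eq_zero fun z _ => if_neg (by omega)).symm
    rw [sum_congr rfl e, ← sum_product']
    refine sum_nbij' (fun t => Fin.cons t.1 t.2) (fun y => (y 0, Fin.tail y)) ?_ ?_ ?_ ?_ ?_
    · rintro ⟨y, z⟩ h
      simp only [mem_product, Fintype.mem_piFinset] at h ⊢
      intro i
      refine Fin.cases ?_ (fun i => ?_) i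
      · simpa using h.1
      · simpa using h.2 i
    · intro y h
      simp only [mem_product, Fintype.mem_piFinset] at h ⊢
      exact ⟨h 0, fun i => h i.succ⟩
    · rintro ⟨y, z⟩ _; simp
    · intro y _; simp
    · rintro ⟨y, z⟩ _
      simp [Fin.sum_univ_succ]

theorem sum_le_spl (B : ℕ → ℕ → ℤ) {m : ℕ} (u : V m) (r : ℕ) :
    ∑ x ∈ (sph m r).filter (fun x => Le x u), B (exc x) (exc (u - x)) =
      spl B (List.ofFn (ab u)) r 0 0 := by
  rw [spl_ofFn, ← sum_filter]
  refine sum_nbij' (fun x => ab x) (fun y i => (u i).sign * y i) ?_ ?_ ?_ ?_ ?_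
  · intro x hx
    simp only [mem_filter, mem_sph, Fintype.mem_piFinset, mem_range] at hx ⊢
    exact ⟨fun i => by have := hx.2 i; simp only [ab]; omega, hx.1⟩
  · intro y hy
    simp only [mem_filter, mem_sph, Fintype.mem_piFinset, mem_range, ab] at hy ⊢
    have key : ∀ i, ((u i).sign * y i).natAbs = y i ∧
        ((u i).sign * y i).natAbs + (u i - (u i).sign * y i).natAbs = (u i).natAbs := by
      intro i
      have := hy.1 i
      rcases lt_trichotomy (u i) 0 with h | h | h
      · rw [Int.sign_eq_neg_one_of_neg h]; omega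
      · rw [h] at this ⊢; simp at this ⊢; omega
      · rw [Int.sign_eq_one_of_pos h]; omega
    exact ⟨(sum_congr rfl fun i _ => (key i).1).trans hy.2, fun i => (key i).2⟩
  · intro x hx
    simp only [mem_filter] at hx
    funext i
    have := hx.2 i
    simp only [ab]
    rcases lt_trichotomy (u i) 0 with h | h | h
    · rw [Int.sign_eq_neg_one_of_neg h]; omega
    · rw [h] at this ⊢; simp at this ⊢; omega
    · rw [Int.sign_eq_one_of_pos h]; omega
  · intro y hy
    simp only [mem_filter, Fintype.mem_piFinset, mem_range, ab] at hy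
    funext i
    have := hy.1 i
    simp only [ab]
    rcases lt_trichotomy (u i) 0 with h | h | h
    · rw [Int.sign_eq_neg_one_of_neg h]; omega
    · rw [h] at this ⊢; simp at this ⊢; omega
    · rw [Int.sign_eq_one_of_pos h]; omega
  · intro x hx
    simp only [mem_filter] at hx
    simp only [zero_add, exc, ab]
    congr 1
    refine sum_congr rfl fun i _ => ?_
    have := hx.2 i
    simp only [Pi.sub_apply]
    omega

/-- the parts of the partition with conjugate `A` -/
def unconj (D : ℕ) (A : List ℕ) : List ℕ :=
  (List.range D).flatMap fun k => List.replicate (A.getD k 0 - A.getD (k + 1) 0) (k + 1)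

theorem unconj_perm {m D : ℕ} (a : Fin m → ℕ) (h : ∀ i, a i ≤ D) {A : List ℕ}
    (hA : ∀ k, A.getD k 0 = conj a k) :
    (unconj D A).Perm ((List.ofFn a).filter fun j => decide (j ≠ 0)) := by
  rw [List.perm_iff_count]
  intro j
  have h1 : (List.ofFn a).count j = (univ.filter fun i => a i = j).card := by
    rw [List.count_eq_countP, List.ofFn_eq_map, List.countP_map, card_filter,
      Fin.sum_univ_def, List.countP_eq_length_filter]
    induction List.finRange m with
    | nil => rfl
    | cons i l ih =>
      by_cases e : a i = j <;> simp [e, ← ih, add_comm]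
  have h2 : (unconj D A).count j = ∑ k ∈ range D,
      if k + 1 = j then A.getD k 0 - A.getD (k + 1) 0 else 0 := by
    rw [unconj, List.count_flatMap, ← List.sum_toFinset _ List.nodup_range, List.toFinset_range]
    exact sum_congr rfl fun k _ => by simp [List.count_replicate]
  rw [h2]
  rcases j with _ | j
  · rw [List.count_eq_zero.2 (by simp)]; simp
  · rw [List.count_filter (by simp), h1]
    simp only [Nat.add_right_cancel_iff, sum_ite_eq', mem_range, hA]
    have h3 : conj a j = (univ.filter fun i => a i = j + 1).card + conj a (j + 1) := by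
      simp only [conj, card_filter, ← sum_add_distrib]
      exact sum_congr rfl fun i _ => by split_ifs <;> omega
    split_ifs with h4
    · omega
    · exact (card_eq_zero.2 (filter_eq_empty_iff.2 fun i _ => by have := h i; omega)).symm

theorem spl_unconj (B : ℕ → ℕ → ℤ) {m D : ℕ} {u : V m} (hu : nrm u = D) {A : List ℕ}
    (hA : ∀ k, A.getD k 0 = conj (ab u) k) (r : ℕ) :
    spl B (unconj D A) r 0 0 =
      ∑ x ∈ (sph m r).filter (fun x => Le x u), B (exc x) (exc (u - x)) := by
  rw [sum_le_spl, spl_perm B (unconj_perm _ (fun i => hu ▸ natAbs_le_nrm u i) hA), spl_filter]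

end Pool.Agent.Lib.MP_a6e91d_co
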