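import Pool.Agent.Lib.MP_a6e91d_co.NL.E1
import Pool.Agent.Lib.MP_a6e91d_co.Small

set_option autoImplicit false

namespace Pool.Agent.Lib.MP_a6e91d_co
open Finset

namespace Code
variable {m : ℕ}

theorem rkill {n : ℕ} (T : Code m (n + 1)) (hm : n + 1 < 2 * m) (h : rchk n m = true) : False := by
  simp only [rchk, List.any_eq_true, Bool.and_eq_true, Bool.or_eq_true, decide_eq_true_eq,
    ← S_eq_Sc] at h
  obtain ⟨σ, -, h1, h2 | h2⟩ := h
  · have := T.R_two hm 1 σ (2 * m - min m (n + 1) - 1) (by omega)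
      (fun a b hab => by simpa using le_add_of_sq h1 hab) (by omega)
    omega
  · have := T.R_three (by omega) (4 * m - (n + 1)) ((n + 2) * σ) (2 * m - min m (n + 1) - 1)
      (by omega)
      (fun a b hab => Nat.mul_le_mul_left _ (le_add_of_sq h1 hab)) h2.1 (by omega)
    omega

/-- the range of small dimension -/
theorem small_range {s : ℕ} (T : Code m s) (hs : 3 ≤ s) (hm : 3 ≤ m)
    (h : 2 * m + 2 ≤ s * (s + 1))
    (hx : ¬ (s = 3 ∧ m = 4 ∨ s = 3 ∧ m = 5 ∨ s = 4 ∧ m = 7 ∨ s = 4 ∧ m = 8 ∨ s = 5 ∧ m = 13)) :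
    False := by
  by_cases h10 : 10 ≤ s
  · exact T.R_big h10 hm h
  by_cases hA : 2 * m ≤ s + 1
  · exact T.regimeA hm hA
  obtain ⟨k, rfl⟩ : ∃ k, s = k + 1 := ⟨s - 1, by omega⟩
  have hk : (k + 1) * (k + 1 + 1) ≤ 9 * 10 := Nat.mul_le_mul (by omega) (by omega)
  rcases rchk_all k (by omega) m (by omega) ⟨by omega, hm, by omega, h⟩ with h1 | h1
  · exact T.rkill (by omega) h1
  simp only [List.mem_cons, Prod.mk.injEq, List.not_mem_nil, or_false] at h1
  rcases h1 with ⟨rfl, rfl⟩ | ⟨rfl, rfl⟩ | h1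
  · have := T.R_one (by omega)
    rw [S_eq_Sc, S_eq_Sc, N_eq] at this
    revert this; decide +kernel
  · have := T.R_one (by omega)
    rw [S_eq_Sc, S_eq_Sc, N_eq] at this
    revert this; decide +kernel
  · omega

theorem large_big {s : ℕ} (T : Code m s) (hs : 7 ≤ s)
    (hm : s * (s + 1) ≤ 2 * m) : False := by
  obtain ⟨c, hc, hd⟩ : ∃ c, c ≤ s ∧ s + 1 ∣ 2 * m + 1 + c := by
    refine ⟨s - 2 * m % (s + 1), by omega, 2 * m / (s + 1) + 1, ?_⟩
    have a := Nat.div_add_mod (2 * m) (s + 1)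
    have b := Nat.mod_lt (2 * m) (show 0 < s + 1 by omega)
    rw [mul_add]; omega
  rcases Nat.eq_zero_or_pos c with rfl | h1
  · rw [add_zero] at hd
    have h3 : s * (s + 2) ≤ 2 * m := by
      obtain ⟨k, hk⟩ := hd
      have : s + 1 ≤ k := by
        by_contra h
        have := Nat.mul_le_mul_left (s + 1) (show k ≤ s by omega)
        rw [mul_comm (s + 1) s] at this
        omega
      have := Nat.mul_le_mul_left (s + 1) this
      nlinarith
    by_cases h12 : 12 ≤ s
    · exact T.T3_big h12 h3 hd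
    have : s = 8 ∨ s = 10 := by
      have : s = 7 ∨ s = 8 ∨ s = 9 ∨ s = 10 ∨ s = 11 := by omega
      rcases this with rfl | rfl | rfl | rfl | rfl <;> omega
    rcases this with rfl | rfl
    · exact c8T3.ckill3 T (.inl le_rfl) rfl rfl c8T3_ok c8T3_W c8T3_E c8T3_U (m0 := 40) (st := 1)
        (t := m - 40) (by omega) (by change 9 ∣ _; omega) c8T3_f
    · exact c10T3.ckill3 T (.inl le_rfl) rfl rfl c10T3_ok c10T3_W c10T3_E c10T3_U (m0 := 60)
        (st := 1) (t := m - 60) (by omega) (by change 11 ∣ _; omega) c10T3_f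
  rcases hc.eq_or_lt with rfl | h3
  · have hd' : c + 1 ∣ 2 * m := by
      rw [add_assoc, add_comm 1] at hd
      exact (Nat.dvd_add_left (dvd_refl _)).1 hd
    by_cases h10 : 10 ≤ c
    · exact T.T2_big h10 hm hd'
    have : c = 7 ∨ c = 8 ∨ c = 9 := by omega
    rcases this with rfl | rfl | rfl
    · exact c7T2.ckill2 T (.inl le_rfl) rfl rfl c7T2_ok c7T2_W c7T2_E c7T2_U (m0 := 28) (st := 1)
        (t := m - 28) (by omega) (by change 8 ∣ _; omega) c7T2_f
    · exact c8T2.ckill2 T (.inl le_rfl) rfl rfl c8T2_ok c8T2_W c8T2_E c8T2_U (m0 := 36) (st := 1)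
        (t := m - 36) (by omega) (by change 9 ∣ _; omega) c8T2_f
    · exact c9T2.ckill2 T (.inl le_rfl) rfl rfl c9T2_ok c9T2_W c9T2_E c9T2_U (m0 := 45) (st := 1)
        (t := m - 45) (by omega) (by change 10 ∣ _; omega) c9T2_f
  · exact T.T1_big hs hm h1 h3 hd

/-- no tiling at all for radius at least seven -/
theorem seven_le {s : ℕ} (T : Code m s) (hs : 7 ≤ s) (hm : 3 ≤ m) : False := by
  by_cases h : 2 * m + 2 ≤ s * (s + 1)
  · exact T.small_range (by omega) hm h (by omega)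
  have h' : s * (s + 1) ≤ 2 * m := by
    obtain ⟨k, hk⟩ := Nat.even_mul_succ_self s
    omega
  exact T.large_big hs h'

end Code

end Pool.Agent.Lib.MP_a6e91d_co
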