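import Pool.Agent.Lib.MP_a6e91d_co.NL.Marks
import Pool.Agent.Lib.MP_a6e91d_co.T1

set_option autoImplicit false

namespace Pool.Agent.Lib.MP_a6e91d_co
open Finset

variable {m : ℕ}

namespace Code
variable {s : ℕ}

noncomputable def Tn (T : Code m s) (n k k' : ℕ) : ℕ := ∑ w ∈ T.L n, tg w k k' (s + 1)

theorem Tn_eq (T : Code m s) (n : ℕ) {k : ℕ} (k' : ℕ) (hk : k ≤ s + 1) :
    T.Tn n k k' = T.X n k k' (s + 1 - k) := by
  refine sum_congr rfl fun w _ => ?_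
  rw [← tg_eq, Nat.add_sub_cancel' hk]

theorem Tn_mono (T : Code m s) (n : ℕ) {k k' k0 k0' : ℕ} (h : k0 ≤ k) (h' : k0' ≤ k') :
    T.Tn n k k' ≤ T.Tn n k0 k0' := sum_le_sum fun w _ => tg_mono w h h' _

variable {p : ℕ} (T : Code m (p + 2))

theorem Tw_tail (hm : p ≤ 2 * m) {k k' : ℕ} (h1 : 2 ≤ k) (h2 : 2 ≤ k') (h3 : 6 ≤ k + k')
    (h4 : k + k' ≤ p + 4) : (2 * m) ^ (k + k' - 6) * T.Tn (2 * (p + 2) + 2) k k' ≤
      (p + 2) * (p + 1) * p ^ (k + k' - 6) * S m p := by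
  have e : T.Tn (2 * (p + 2) + 2) k k' = T.X (2 * (p + 2) + 2) k k' (p + 3 - max k k') := by
    rw [T.Tn_eq _ _ (by omega)]
    rcases le_total k k' with h | h
    · rw [max_eq_right h]; exact T.X_symm (by omega)
    · rw [max_eq_left h]
  have hb := T.X_two (k := k) (k' := k') (b := p + 4 - (k + k')) (by omega) (by omega) (by omega)
  have hG := Gb_le (m := m) (b := p + 4 - (k + k')) (by omega)
  have := tail_bound (m := m) (p := p) (b := p + 4 - (k + k')) (a := p + 3 - max k k')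
    (T.X (2 * (p + 2) + 2) k k') (fun j r h h' => T.X_flat (by omega) h') (by omega) (by omega)
    (by omega) (by omega) (by omega)
  rwa [show p - (p + 4 - (k + k') + 2) = k + k' - 6 by omega, ← e] at this

theorem Tu_tail (hm : p ≤ 2 * m) {k k' : ℕ} (h1 : 2 ≤ k) (h2 : 2 ≤ k') (h3 : 5 ≤ k + k')
    (h4 : k + k' ≤ p + 3) : (2 * m) ^ (k + k' - 5) * T.Tn (2 * (p + 2) + 1) k k' ≤
      (p + 2) * (p + 1) * p ^ (k + k' - 5) * S m p := by
  have e : T.Tn (2 * (p + 2) + 1) k k' = T.X (2 * (p + 2) + 1) k k' (p + 3 - max k (k' + 1)) := by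
    rw [T.Tn_eq _ _ (by omega)]
    rcases le_total k (k' + 1) with h | h
    · rw [max_eq_right h]; exact T.X_symm (by omega)
    · rw [max_eq_left h]
  have hb := T.X_one (k := k) (k' := k') (b := p + 3 - (k + k')) (by omega) (by omega) (by omega)
  have hG := Gb_le (m := m) (b := p + 3 - (k + k')) (by omega)
  have := tail_bound (m := m) (p := p) (b := p + 3 - (k + k')) (a := p + 3 - max k (k' + 1))
    (T.X (2 * (p + 2) + 1) k k') (fun j r h h' => T.X_flat (by omega) h') (by omega) (by omega)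
    (by omega) (by omega) (by omega)
  rwa [show p - (p + 3 - (k + k') + 2) = k + k' - 5 by omega, ← e] at this

theorem cast_tail {x r : ℕ} (hm : 1 ≤ m) (h : (2 * m) ^ r * x ≤ (p + 2) * (p + 1) * p ^ r * S m p) :
    (x : ℚ) ≤ (p + 2) * (p + 1) * S m p * ((p : ℚ) / (2 * m)) ^ r := by
  have h' : ((2 * m : ℚ)) ^ r * x ≤ (p + 2) * (p + 1) * p ^ r * S m p := by exact_mod_cast h
  have : (0 : ℚ) < (2 * m) ^ r := by positivity
  rw [div_pow, ← mul_div_assoc, le_div_iff₀ this]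
  linarith

theorem Tw_le (hp : 5 ≤ p) (hm : p ≤ 2 * m) {k k' : ℕ} (h1 : 2 ≤ k) (h2 : 2 ≤ k') (h3 : 6 ≤ k + k') :
    (T.Tn (2 * (p + 2) + 2) k k' : ℚ) ≤
      (p + 2) * (p + 1) * S m p * ((p : ℚ) / (2 * m)) ^ (min (k + k') 9 - 6) := by
  by_cases h : k + k' ≤ 9
  · rw [min_eq_left h]
    exact cast_tail (by omega) (T.Tw_tail hm h1 h2 h3 (by omega))
  · rw [min_eq_right (by omega)]
    have a := T.Tw_tail hm (k := min k 7) (k' := 9 - min k 7) (by omega) (by omega) (by omega)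
      (by omega)
    rw [show min k 7 + (9 - min k 7) = 9 by omega] at a
    refine le_trans ?_ (cast_tail (by omega) a)
    exact_mod_cast T.Tn_mono _ (by omega) (by omega)

theorem Tu_le (hp : 5 ≤ p) (hm : p ≤ 2 * m) {k k' : ℕ} (h1 : 2 ≤ k) (h2 : 2 ≤ k') (h3 : 5 ≤ k + k') :
    (T.Tn (2 * (p + 2) + 1) k k' : ℚ) ≤
      (p + 2) * (p + 1) * S m p * ((p : ℚ) / (2 * m)) ^ (min (k + k') 8 - 5) := by
  by_cases h : k + k' ≤ 8
  · rw [min_eq_left h]
    exact cast_tail (by omega) (T.Tu_tail hm h1 h2 h3 (by omega))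
  · rw [min_eq_right (by omega)]
    have a := T.Tu_tail hm (k := min k 6) (k' := 8 - min k 6) (by omega) (by omega) (by omega)
      (by omega)
    rw [show min k 6 + (8 - min k 6) = 8 by omega] at a
    refine le_trans ?_ (cast_tail (by omega) a)
    exact_mod_cast T.Tn_mono _ (by omega) (by omega)

theorem main_terms {r : ℕ} (T : Code m (r + 1 + 2)) (hr : 1 ≤ r) :
    (T.Tn (2 * (r + 1 + 2) + 2) 2 2 + 2 * T.Tn (2 * (r + 1 + 2) + 1) 2 2 +
      (T.Tn (2 * (r + 1 + 2) + 2) 2 3 + T.Tn (2 * (r + 1 + 2) + 2) 3 2 +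
        2 * T.Tn (2 * (r + 1 + 2) + 1) 2 3) : ℚ) ≤
      (r + 3) / (r + 2) * (Gb m (r + 1) + Gb m r) + 2 * (r + 3) / (r + 1) * Gb m r := by
  have e1 : T.Tn (2 * (r + 1 + 2) + 2) 2 2 = T.X (2 * (r + 1 + 2) + 2) 2 2 (r + 1 + 1) :=
    T.Tn_eq _ _ (by omega)
  have e2 : T.Tn (2 * (r + 1 + 2) + 1) 2 2 = T.X (2 * (r + 1 + 2) + 1) 2 2 (r + 1) :=
    (T.Tn_eq _ _ (by omega)).trans (T.X_symm (by omega))
  have e3 : T.Tn (2 * (r + 1 + 2) + 2) 2 3 = T.X (2 * (r + 1 + 2) + 2) 2 3 (r + 1) :=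
    (T.Tn_eq _ _ (by omega)).trans (T.X_symm (by omega))
  have e4 : T.Tn (2 * (r + 1 + 2) + 2) 3 2 = T.X (2 * (r + 1 + 2) + 2) 2 3 (r + 1) :=
    (T.Tn_eq _ _ (by omega)).trans (T.X_comm _ _ _ _)
  have e5 : T.Tn (2 * (r + 1 + 2) + 1) 2 3 = T.X (2 * (r + 1 + 2) + 1) 2 3 r :=
    (T.Tn_eq _ _ (by omega)).trans (T.X_symm (by omega))
  have f1 := T.X_flat (n := 2 * (r + 1 + 2) + 2) (k := 2) (k' := 2) (a := r + 1) (r := r + 3)
    (by omega) (by omega)
  have f2 := T.X_flat (n := 2 * (r + 1 + 2) + 1) (k := 2) (k' := 2) (a := r) (r := r + 3)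
    (by omega) (by omega)
  have f3 := T.X_flat (n := 2 * (r + 1 + 2) + 2) (k := 2) (k' := 3) (a := r) (r := r + 3)
    (by omega) (by omega)
  have g1 := T.X_two (k := 2) (k' := 2) (b := r + 1) (by omega) (by omega) (by omega)
  have g2 := T.X_one (k := 2) (k' := 2) (b := r) (by omega) (by omega) (by omega)
  have g3 := T.X_two (k := 2) (k' := 3) (b := r) (by omega) (by omega) (by omega)
  rw [e1, e2, e3, e4, e5]
  rw [g2] at f2
  qify at f1 f2 f3 g1 g3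
  generalize (T.X (2 * (r + 1 + 2) + 2) 2 2 (r + 1 + 1) : ℚ) = x1 at *
  generalize (T.X (2 * (r + 1 + 2) + 2) 2 2 (r + 1) : ℚ) = x2 at *
  generalize (T.X (2 * (r + 1 + 2) + 1) 2 2 (r + 1) : ℚ) = x3 at *
  generalize (T.X (2 * (r + 1 + 2) + 2) 2 3 (r + 1) : ℚ) = x4 at *
  generalize (T.X (2 * (r + 1 + 2) + 2) 2 3 r : ℚ) = x5 at *
  have p6 : (0 : ℚ) ≤ (T.X (2 * (r + 1 + 2) + 1) 2 3 r : ℚ) := by positivity
  generalize (T.X (2 * (r + 1 + 2) + 1) 2 3 r : ℚ) = x6 at *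
  generalize (Gb m (r + 1) : ℚ) = y1 at *
  generalize (Gb m r : ℚ) = y2 at *
  have hr' : (0 : ℚ) ≤ r := by positivity
  have a : x1 + 2 * x3 ≤ (r + 3) / (r + 2) * (y1 + y2) := by
    rw [div_mul_eq_mul_div, le_div_iff₀ (by positivity), ← g1]
    linarith
  have b : x4 + x4 + 2 * x6 ≤ 2 * (r + 3) / (r + 1) * y2 := by
    rw [div_mul_eq_mul_div, le_div_iff₀ (by positivity), ← g3]
    linarith
  linarith

omit T in
/-- weight of the ordered pairs of centres at distance `s+1` from a point of the sphere -/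
noncomputable def Aw (T : Code m s) : ℕ :=
  ∑ x ∈ sph m s, ∑ u ∈ T.up (2 * s + 1) x, exc (u - x) * ∑ u' ∈ T.up (2 * s + 1) x, exc (u' - x)

omit T in
/-- the same pairs seen from the first centre -/
noncomputable def gam (T : Code m s) (y : V m) : ℕ :=
  exc y * (exc y + ∑ w ∈ T.up (2 * s + 2) y, exc (w - y))

omit T in
noncomputable def Bw (T : Code m s) : ℕ := ∑ y ∈ sph m (s + 1), T.gam y

omit T in
theorem Bw_eq (T : Code m s) : T.Bw = ∑ y ∈ sph m (s + 1), exc y * exc y +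
    ∑ w ∈ T.L (2 * s + 2), ∑ y ∈ (sph m (s + 1)).filter (fun y => Le y w),
      exc y * exc (w - y) := by
  rw [← T.sum_up_comm (s + 1) (2 * s + 2) (fun y w => exc y * exc (w - y)), ← sum_add_distrib]
  exact sum_congr rfl fun y _ => by rw [gam, mul_add, mul_sum]

omit T in
theorem sum_U_sq (T : Code m s) :
    ∑ x ∈ sph m s, (exc x + ∑ u ∈ T.up (2 * s + 1) x, exc (u - x)) ^ 2 =
      ∑ x ∈ sph m s, exc x * exc x + T.Aw +
      2 * ∑ w ∈ T.L (2 * s + 1), ∑ y ∈ (sph m (s + 1)).filter (fun y => Le y w),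
        exc y * exc (w - y) := by
  have h1 := T.sum_compl (fun x y => exc y * exc x)
  rw [← T.sum_up_comm (s + 1) (2 * s + 1) (fun y w => exc y * exc (w - y)), ← h1, Aw, mul_sum,
    ← sum_add_distrib, ← sum_add_distrib]
  refine sum_congr rfl fun x _ => ?_
  rw [← sum_mul, ← sum_mul]
  ring

omit T in
theorem sum_U_sq_le (T : Code m s) (h : T.Aw ≤ T.Bw) :
    ∑ x ∈ sph m s, (exc x + ∑ u ∈ T.up (2 * s + 1) x, exc (u - x)) ^ 2 ≤
      ∑ x ∈ sph m s, exc x * exc x + ∑ y ∈ sph m (s + 1), exc y * exc y +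
      ∑ w ∈ T.L (2 * s + 2), ∑ y ∈ (sph m (s + 1)).filter (fun y => Le y w), exc y * exc (w - y) +
      2 * ∑ w ∈ T.L (2 * s + 1), ∑ y ∈ (sph m (s + 1)).filter (fun y => Le y w),
        exc y * exc (w - y) := by
  rw [T.sum_U_sq]
  rw [T.Bw_eq] at h
  omega

omit T in
theorem sum_U (T : Code m s) :
    ∑ x ∈ sph m s, (exc x + ∑ u ∈ T.up (2 * s + 1) x, exc (u - x)) =
      ∑ x ∈ sph m s, exc x + ∑ y ∈ sph m (s + 1), exc y := by
  have h1 := T.sum_compl (fun _ y => exc y)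
  rw [sum_add_distrib]
  congr 1
  rw [h1]
  refine sum_congr rfl fun y hy => ?_
  rw [sum_const, T.cover1 (mem_sph.1 hy), one_smul]

omit T in
theorem T1_loc {s c : ℕ} (T : Code m s) (hs : 7 ≤ s) (hm : s * (s + 1) ≤ 2 * m) (hc1 : 1 ≤ c)
    (hc2 : c + 1 ≤ s) (hd : s + 1 ∣ 2 * m + 1 + c) (hAB : T.Aw ≤ T.Bw) : False := by
  obtain ⟨r, rfl⟩ : ∃ r, s = r + 1 + 2 := ⟨s - 3, by omega⟩
  obtain ⟨k1, hk1⟩ := hd
  have hm' : r + 1 ≤ 2 * m := by nlinarith
  have hm1 : 1 ≤ m := by omega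
  set U : V m → ℕ := fun x => exc x + ∑ u ∈ T.up (2 * (r + 1 + 2) + 1) x, exc (u - x) with hU
  have h0 : (0 : ℤ) ≤ ∑ x ∈ sph m (r + 1 + 2), ((U x : ℤ) - c) * (U x - c - (r + 1 + 2 + 1)) := by
    refine sum_nonneg fun x hx => ?_
    have a := T.K_eq (mem_sph.1 hx)
    have b : (U x : ℤ) - c = (r + 1 + 2 + 1) * (T.K x + 1 - k1) := by
      simp only [hU]
      zify at a hk1
      push_cast
      linear_combination -hk1 - a
    rw [b]
    have : (0 : ℤ) ≤ ((T.K x : ℤ) + 1 - k1) * (T.K x + 1 - k1 - 1) := by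
      by_cases h : (T.K x : ℤ) + 1 - k1 ≤ 0
      · exact mul_nonneg_of_nonpos_of_nonpos h (by omega)
      · exact mul_nonneg (by omega) (by omega)
    have := mul_nonneg (sq_nonneg ((r : ℤ) + 1 + 2 + 1)) this
    linarith
  have h1 : ∑ x ∈ sph m (r + 1 + 2), ((U x : ℤ) - c) * (U x - c - (r + 1 + 2 + 1)) =
      ((∑ x ∈ sph m (r + 1 + 2), U x ^ 2 : ℕ) : ℤ) -
        (2 * c + (r + 3) + 1) * ((∑ x ∈ sph m (r + 1 + 2), U x : ℕ) : ℤ) +
        c * (c + (r + 3) + 1) * S m (r + 1 + 2) := by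
    push_cast
    rw [mul_sum, ← sum_sub_distrib, S, mul_comm _ ((sph m (r + 1 + 2)).card : ℤ), ← nsmul_eq_mul,
      ← sum_const, ← sum_add_distrib]
    exact sum_congr rfl fun x _ => by ring
  rw [h1] at h0
  replace h0 := h0.trans (add_le_add_left
    (sub_le_sub_right (Nat.cast_le (α := ℤ).2 (T.sum_U_sq_le hAB)) _) _)
  rw [T.sum_U, sum_exc_sq (r + 1), sum_exc_sq (r + 2), sum_exc (r + 2),
    sum_exc (r + 3)] at h0
  have hw : ∑ w ∈ T.L (2 * (r + 1 + 2) + 2), ∑ y ∈ (sph m (r + 1 + 2 + 1)).filter (fun y => Le y w),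
      exc y * exc (w - y) ≤ ∑ k ∈ range 5, ∑ k' ∈ range 5, lam (r + 1) k * lam (r + 1) k' *
        T.Tn (2 * (r + 1 + 2) + 2) (k + 2) (k' + 2) := by
    refine (sum_le_sum fun w hw => sum_exc_exc_le (p := r + 1) w
      (by rw [(T.mem_L.1 hw).1]; omega)).trans_eq ?_
    rw [sum_comm]
    refine sum_congr rfl fun k _ => ?_
    rw [sum_comm]
    exact sum_congr rfl fun k' _ => (mul_sum _ _ _).symm
  have hu : ∑ w ∈ T.L (2 * (r + 1 + 2) + 1), ∑ y ∈ (sph m (r + 1 + 2 + 1)).filter (fun y => Le y w),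
      exc y * exc (w - y) ≤ ∑ k ∈ range 5, ∑ k' ∈ range 5, lam (r + 1) k * lam (r + 1) k' *
        T.Tn (2 * (r + 1 + 2) + 1) (k + 2) (k' + 2) := by
    refine (sum_le_sum fun w hw => sum_exc_exc_le (p := r + 1) w
      (by rw [(T.mem_L.1 hw).1]; omega)).trans_eq ?_
    rw [sum_comm]
    refine sum_congr rfl fun k _ => ?_
    rw [sum_comm]
    exact sum_congr rfl fun k' _ => (mul_sum _ _ _).symm
  set q : ℚ := ((r + 1 : ℕ) : ℚ) / (2 * m) with hq
  set B : ℚ := (((r + 1 : ℕ) : ℚ) + 2) * ((r + 1 : ℕ) + 1) * S m (r + 1) with hB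
  have hw2 : ((∑ k ∈ range 5, ∑ k' ∈ range 5, lam (r + 1) k * lam (r + 1) k' *
      T.Tn (2 * (r + 1 + 2) + 2) (k + 2) (k' + 2) : ℕ) : ℚ) ≤
      ∑ k ∈ range 5, ∑ k' ∈ range 5, (lam (r + 1) k : ℚ) * lam (r + 1) k' *
        if k + k' ≤ 1 then (T.Tn (2 * (r + 1 + 2) + 2) (k + 2) (k' + 2) : ℚ)
        else B * q ^ (min (k + 2 + (k' + 2)) 9 - 6) := by
    push_cast
    refine sum_le_sum fun k _ => sum_le_sum fun k' _ =>
      mul_le_mul_of_nonneg_left ?_ (by positivity)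
    split_ifs with h
    · exact le_rfl
    · exact T.Tw_le (by omega) hm' (by omega) (by omega) (by omega)
  have hu2 : ((∑ k ∈ range 5, ∑ k' ∈ range 5, lam (r + 1) k * lam (r + 1) k' *
      T.Tn (2 * (r + 1 + 2) + 1) (k + 2) (k' + 2) : ℕ) : ℚ) ≤
      ∑ k ∈ range 5, ∑ k' ∈ range 5, (lam (r + 1) k : ℚ) * lam (r + 1) k' *
        if k = 0 ∧ k' ≤ 1 then (T.Tn (2 * (r + 1 + 2) + 1) (k + 2) (k' + 2) : ℚ)
        else B * q ^ (min (k + 2 + (k' + 2)) 8 - 5) := by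
    push_cast
    refine sum_le_sum fun k _ => sum_le_sum fun k' _ =>
      mul_le_mul_of_nonneg_left ?_ (by positivity)
    split_ifs with h
    · exact le_rfl
    · exact T.Tu_le (by omega) hm' (by omega) (by omega) (by omega)
  have hl : ((r + 1 - 2 : ℕ) : ℚ) = r - 1 := by
    rw [Nat.cast_sub (by omega)]; push_cast; ring
  have hw3 := (Nat.cast_le (α := ℚ).2 hw).trans hw2
  have hu3 := (Nat.cast_le (α := ℚ).2 hu).trans hu2
  clear hw hu hw2 hu2 h1
  simp only [sum_range_succ, range_zero, sum_empty, lam] at hw3 hu3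
  norm_num [hl] at hw3 hu3
  have hmain := T.main_terms (by omega)
  have h0' : (0 : ℚ) ≤ _ := Int.cast_nonneg h0
  push_cast at h0'
  have g1 := Gb_eq (m := m) (r + 1)
  have g2 := Gb_eq (m := m) r
  have r0 := S_ratio (m := m) (r + 2)
  have r1 := S_ratio (m := m) (r + 1)
  have r2 := S_ratio (m := m) r
  have p1 := S_pos hm1 (r + 2)
  rw [show r + 1 + 2 = r + 3 from rfl, show r + 1 + 1 = r + 2 from rfl] at g1
  rw [show r + 2 + 1 = r + 3 from rfl] at r0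
  rw [show r + 1 + 1 = r + 2 from rfl] at r1
  qify at g1 g2 r0 r1 r2 p1 hm hs
  refine final_T1 (r + 3) (2 * m) c (S m (r + 3)) (S m (r + 2)) (S m (r + 1)) (S m r) q
    (by linarith) (by linarith) ?_ (by rw [hq]; push_cast; ring) p1 (by positivity) (by linarith)
    (by linarith) (by linarith) (Gb m (r + 1)) (Gb m r) (by linarith) (by linarith) ?_
  · by_cases h : c = 1
    · left
      subst h
      refine ⟨by simp, ?_⟩
      have a : r + 1 + 2 < k1 := by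
        by_contra h
        have : (r + 1 + 2 + 1) * k1 ≤ (r + 1 + 2 + 1) * (r + 1 + 2) :=
          Nat.mul_le_mul_left _ (by omega)
        qify at this hk1
        linarith
      have : (r + 1 + 2 + 1) * (r + 1 + 2 + 1) ≤ (r + 1 + 2 + 1) * k1 := Nat.mul_le_mul_left _ a
      qify at this hk1
      linarith
    · right
      have a : 2 ≤ c := by omega
      qify at a hc2
      exact ⟨a, by linarith⟩
  · rw [show (r : ℚ) + 3 - 1 = r + 2 by ring, show (r : ℚ) + 3 - 2 = r + 1 by ring]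
    simp only [hB] at hw3 hu3
    push_cast at hw3 hu3
    rw [show S m (r + 1 + 2) = S m (r + 3) from rfl, show S m (r + 2 + 1) = S m (r + 3) from rfl,
      show S m (r + 1 + 1) = S m (r + 2) from rfl] at h0'
    linarith

end Code

end Pool.Agent.Lib.MP_a6e91d_co
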